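import Pool.Agent.Y389.LS.Case3

/-!
# Laplacian spread: the Rayleigh quotient form
-/

open Finset

namespace Pool.Agent.Y389.LS

variable {V : Type*} [Fintype V]

/-- minimiser of a quadratic form on the unit sphere orthogonal to the constants -/
structure QMin (w : V → V → ℝ) (x : V → ℝ) : Prop where
  sx : ∑ i, x i = 0
  xx : ∑ i, x i ^ 2 = 1
  le : ∀ x' : V → ℝ, ∑ i, x' i = 0 → ∑ i, x' i ^ 2 = 1 → BB w x x ≤ BB w x' x'

theorem exists_qmin (w : V → V → ℝ) {x0 : V → ℝ} (h0 : ∑ i, x0 i = 0) (h1 : ∑ i, x0 i ^ 2 = 1) :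
    ∃ x, QMin w x := by
  set K : Set (V → ℝ) := {p | ∑ i, p i = 0} ∩ {p | ∑ i, p i ^ 2 = 1} with hK
  have hclosed : IsClosed K := by
    refine IsClosed.inter (isClosed_eq (by fun_prop) (by fun_prop)) ?_
    exact isClosed_eq (by fun_prop) (by fun_prop)
  have hb : ∀ z : V → ℝ, ∑ i, z i ^ 2 = 1 → ‖z‖ ≤ 1 := by
    intro z hz
    rw [pi_norm_le_iff_of_nonneg zero_le_one]
    intro i
    rw [Real.norm_eq_abs]
    have h1 : z i ^ 2 ≤ 1 := by
      rw [← hz]
      exact single_le_sum (f := fun i => z i ^ 2) (fun j _ => sq_nonneg _) (mem_univ i)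
    exact abs_le_one_iff_mul_self_le_one.2 (by nlinarith)
  have hbdd : Bornology.IsBounded K := by
    rw [isBounded_iff_forall_norm_le]
    exact ⟨1, fun p hp => hb _ hp.2⟩
  have hcomp : IsCompact K := Metric.isCompact_of_isClosed_isBounded hclosed hbdd
  have hcont : ContinuousOn (fun p : V → ℝ => BB w p p) K := by
    apply Continuous.continuousOn
    simp only [BB]
    fun_prop
  obtain ⟨p, hp, hmin⟩ := hcomp.exists_isMinOn ⟨x0, h0, h1⟩ hcont
  refine ⟨p, hp.1, hp.2, fun x' h2 h3 => ?_⟩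
  exact (isMinOn_iff.1 hmin) x' ⟨h2, h3⟩

theorem QMin.perp {w : V → V → ℝ} {x : V → ℝ} (h : QMin w x) (z : V → ℝ)
    (h1 : ∑ i, z i = 0) (h2 : ∑ i, x i * z i = 0) : BB w x z = 0 := by
  apply lin_zero (K := BB w z z - (∑ i, z i ^ 2) * BB w x x)
  intro τ
  set c := ∑ i, z i ^ 2 with hc
  have hc0 : 0 ≤ c := sum_nonneg fun i _ => sq_nonneg _
  have hD : 0 < 1 + τ ^ 2 * c := by positivity
  set s := Real.sqrt (1 + τ ^ 2 * c) with hs
  have hs2 : s ^ 2 = 1 + τ ^ 2 * c := Real.sq_sqrt hD.le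
  have f1 : ∑ i, (x i + τ * z i) / s = 0 := by
    rw [← sum_div, sum_add_distrib, ← mul_sum, h.sx, h1]
    simp
  have f2 : ∑ i, ((x i + τ * z i) / s) ^ 2 = 1 := by
    have : ∀ i, ((x i + τ * z i) / s) ^ 2
        = (x i ^ 2 + 2 * τ * (x i * z i) + τ ^ 2 * z i ^ 2) / s ^ 2 := by
      intro i; rw [div_pow]; ring
    simp only [this]
    rw [← sum_div, sum_add_distrib, sum_add_distrib, ← mul_sum, ← mul_sum, h.xx, h2, ← hc, hs2]
    rw [mul_zero, add_zero]
    exact div_self hD.ne'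
  have h5 := h.le _ f1 f2
  rw [BB_div w (fun i => x i + τ * z i) s, BB_add, hs2, le_div_iff₀ hD] at h5
  nlinarith

theorem QMin.euler {w : V → V → ℝ} {x : V → ℝ} (h : QMin w x) (u : V → ℝ) (hu : ∑ i, u i = 0) :
    BB w x u = (∑ i, x i * u i) * BB w x x := by
  set β := ∑ i, x i * u i with hβ
  have h0 := h.perp (fun i => u i - β * x i) ?_ ?_
  · have h1 : BB w x (fun i => u i - β * x i) = BB w x u - β * BB w x x := by
      simp only [BB, mul_sum, ← sum_sub_distrib]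
      refine sum_congr rfl fun i _ => sum_congr rfl fun j _ => ?_
      ring
    rw [h1] at h0
    linarith
  · simp only [sum_sub_distrib, ← mul_sum, h.sx, hu]
    ring
  · have : ∀ i, x i * (u i - β * x i) = x i * u i - β * x i ^ 2 := by
      intro i; ring
    simp only [this, sum_sub_distrib, ← mul_sum, h.xx]
    rw [← hβ]; ring

theorem BB_ge_Phi {w : V → V → ℝ} (hw : ∀ i j, 0 ≤ w i j ∧ w i j ≤ 1) (x y : V → ℝ) :
    Phi x y ≤ BB w x x + BB (fun i j => 1 - w i j) y y := by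
  simp only [BB, Phi, ← sum_add_distrib]
  refine sum_le_sum fun i _ => sum_le_sum fun j _ => ?_
  have h0 := (hw i j).1
  have h1 := (hw i j).2
  have e1 := min_le_left ((x i - x j) ^ 2) ((y i - y j) ^ 2)
  have e2 := min_le_right ((x i - x j) ^ 2) ((y i - y j) ^ 2)
  nlinarith

/-- unit vector form -/
theorem unit_form {w : V → V → ℝ} (hw : ∀ i j, 0 ≤ w i j ∧ w i j ≤ 1) {x y : V → ℝ}
    (sx : ∑ i, x i = 0) (sy : ∑ i, y i = 0) (xx : ∑ i, x i ^ 2 = 1) (yy : ∑ i, y i ^ 2 = 1) :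
    2 ≤ BB w x x + BB (fun i j => 1 - w i j) y y := by
  obtain ⟨p, hp⟩ := exists_qmin w sx xx
  obtain ⟨q, hq⟩ := exists_qmin (fun i j => 1 - w i j) sy yy
  have h1 := hp.le x sx xx
  have h2 := hq.le y sy yy
  have e1 := hp.euler q hq.sx
  have e2 := hq.euler p hp.sx
  have e3 := BB_compl w p q
  rw [hp.sx, hq.sx, BB_comm (fun i j => 1 - w i j) p q, e1, e2] at e3
  have e4 : ∑ i, q i * p i = ∑ i, p i * q i := sum_congr rfl fun i _ => mul_comm _ _
  rw [e4] at e3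
  set β := ∑ i, p i * q i with hβ
  rcases eq_or_ne β 0 with h0 | h0
  · have hfr : Fr p q := ⟨hp.sx, hq.sx, hp.xx, hq.xx, h0⟩
    have := two_le_Phi hfr
    have := BB_ge_Phi hw p q
    linarith
  · have e5 : β * (BB w p p + BB (fun i j => 1 - w i j) q q - 2 * (Fintype.card V : ℝ)) = 0 := by
      linarith
    have e6 := (mul_eq_zero.1 e5).resolve_left h0
    have hne : Nonempty V := by
      by_contra hcon
      rw [not_nonempty_iff] at hcon
      simp at xx
    have hn : (1 : ℝ) ≤ (Fintype.card V : ℝ) := by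
      have : 0 < Fintype.card V := Fintype.card_pos
      exact_mod_cast this
    linarith

theorem normalise {w : V → V → ℝ} {x : V → ℝ} (sx : ∑ i, x i = 0) (hx : x ≠ 0) :
    ∃ x' : V → ℝ, ∑ i, x' i = 0 ∧ ∑ i, x' i ^ 2 = 1 ∧
      (∑ i, ∑ j, w i j * (x i - x j) ^ 2) / (2 * ∑ i, x i ^ 2) = BB w x' x' / 2 := by
  set s := ∑ i, x i ^ 2 with hs
  have hs0 : 0 < s := by
    obtain ⟨i, hi⟩ := Function.ne_iff.1 hx
    have h1 : x i ^ 2 ≤ s := by
      rw [hs]
      exact single_le_sum (f := fun i => x i ^ 2) (fun j _ => sq_nonneg _) (mem_univ i)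
    have h2 : 0 < x i ^ 2 := by
      have : x i ≠ 0 := hi
      positivity
    linarith
  have hr : Real.sqrt s ^ 2 = s := Real.sq_sqrt hs0.le
  refine ⟨fun i => x i / Real.sqrt s, ?_, ?_, ?_⟩
  · rw [← sum_div, sx]
    simp
  · have : ∀ i, (x i / Real.sqrt s) ^ 2 = x i ^ 2 / s := by
      intro i; rw [div_pow, hr]
    simp only [this]
    rw [← sum_div, ← hs]
    exact div_self hs0.ne'
  · rw [BB_div, hr]
    have : BB w x x = ∑ i, ∑ j, w i j * (x i - x j) ^ 2 := by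
      simp only [BB]
      refine sum_congr rfl fun i _ => sum_congr rfl fun j _ => ?_
      ring
    rw [this]
    rw [div_div, mul_comm s 2]

/-- **Rayleigh quotient form** -/
theorem rayleigh {w : V → V → ℝ} (hw : ∀ i j, 0 ≤ w i j ∧ w i j ≤ 1) {x y : V → ℝ}
    (sx : ∑ i, x i = 0) (sy : ∑ i, y i = 0) (hx : x ≠ 0) (hy : y ≠ 0) :
    1 ≤ (∑ i, ∑ j, w i j * (x i - x j) ^ 2) / (2 * ∑ i, x i ^ 2)
      + (∑ i, ∑ j, (1 - w i j) * (y i - y j) ^ 2) / (2 * ∑ i, y i ^ 2) := by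
  obtain ⟨x', h1, h2, h3⟩ := normalise (w := w) sx hx
  obtain ⟨y', h4, h5, h6⟩ := normalise (w := fun i j => 1 - w i j) sy hy
  rw [h3, h6]
  have := unit_form hw h1 h4 h2 h5
  linarith

end Pool.Agent.Y389.LS
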