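import Pool.Agent.Y389.LS.Star

/-!
# Laplacian spread: the case where one of the two vectors has small oscillation
-/

open Finset

namespace Pool.Agent.Y389.LS

variable {V : Type*} [Fintype V] [DecidableEq V]

theorem l2 {x y : V → ℝ} (h : Fr x y) {c : V} (hc : 0 < y c) :
    ∑ k, (x k - x c) ^ 2 * max 0 ((y c - y k) ^ 2 - 1)
      ≤ (Fintype.card V : ℝ) * ∑ k, x k ^ 2 * y k ^ 2 := by
  set I := univ.filter (fun k => 1 < (y c - y k) ^ 2) with hI
  have h1 : ∑ k, (x k - x c) ^ 2 * max 0 ((y c - y k) ^ 2 - 1)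
      = ∑ k ∈ I, (x k - x c) ^ 2 * ((y c - y k) ^ 2 - 1) := by
    rw [hI, sum_filter]
    refine sum_congr rfl fun k _ => ?_
    split_ifs with hk
    · rw [max_eq_right (by linarith)]
    · rw [max_eq_left (by linarith), mul_zero]
  have hI2 : ∀ k ∈ I, 1 < (y c - y k) ^ 2 := fun k hk => (mem_filter.1 hk).2
  rw [h1]
  rcases Nat.lt_or_ge I.card 2 with hlt | hge
  · have hq0 : 0 ≤ (Fintype.card V : ℝ) * ∑ k, x k ^ 2 * y k ^ 2 :=
      mul_nonneg (Nat.cast_nonneg _) (sum_nonneg fun k _ => by positivity)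
    have : I.card = 0 ∨ I.card = 1 := by omega
    rcases this with h0 | h0
    · rw [card_eq_zero] at h0
      rw [h0, sum_empty]
      exact hq0
    · obtain ⟨i, hi⟩ := card_eq_one.1 h0
      rw [hi, sum_singleton]
      exact star_one h hc (hI2 i (by rw [hi]; exact mem_singleton_self i))
  · exact star_two h I hI2 hge

/-- lower bound for `Phi` by the product sum, when all long pairs contain `c` -/
theorem case_center {x y : V → ℝ} (h : Fr x y) (ha : ∀ i j, (x i - x j) ^ 2 ≤ 1)
    {c : V} (hc : 0 < y c) (hcc : ∀ i j, 1 < (y i - y j) ^ 2 → i = c ∨ j = c) :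
    2 ≤ Phi x y := by
  have hpt : ∀ i j, (x i - x j) ^ 2 * (y i - y j) ^ 2
      - (if i = c then (x j - x c) ^ 2 * max 0 ((y c - y j) ^ 2 - 1) else 0)
      - (if j = c then (x i - x c) ^ 2 * max 0 ((y c - y i) ^ 2 - 1) else 0)
      ≤ min ((x i - x j) ^ 2) ((y i - y j) ^ 2) := by
    intro i j
    have hA := ha i j
    have hA0 := sq_nonneg (x i - x j)
    have hB0 := sq_nonneg (y i - y j)
    have p1 : 0 ≤ (if i = c then (x j - x c) ^ 2 * max 0 ((y c - y j) ^ 2 - 1) else 0) := by
      split_ifs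
      · exact mul_nonneg (sq_nonneg _) (le_max_left _ _)
      · exact le_refl _
    have p2 : 0 ≤ (if j = c then (x i - x c) ^ 2 * max 0 ((y c - y i) ^ 2 - 1) else 0) := by
      split_ifs
      · exact mul_nonneg (sq_nonneg _) (le_max_left _ _)
      · exact le_refl _
    by_cases hb : (y i - y j) ^ 2 ≤ 1
    · have h1 : (x i - x j) ^ 2 * (y i - y j) ^ 2 ≤ min ((x i - x j) ^ 2) ((y i - y j) ^ 2) :=
        le_min (by nlinarith) (by nlinarith)
      linarith
    · push Not at hb
      have hmin : min ((x i - x j) ^ 2) ((y i - y j) ^ 2) = (x i - x j) ^ 2 :=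
        min_eq_left (by linarith)
      rw [hmin]
      rcases hcc i j hb with h1 | h1
      · subst h1
        rw [if_pos rfl] at p1 ⊢
        have h2 : max 0 ((y i - y j) ^ 2 - 1) = (y i - y j) ^ 2 - 1 := max_eq_right (by linarith)
        rw [h2] at p1 ⊢
        nlinarith
      · subst h1
        rw [if_pos rfl] at p2 ⊢
        have h2 : max 0 ((y j - y i) ^ 2 - 1) = (y j - y i) ^ 2 - 1 :=
          max_eq_right (by nlinarith)
        rw [h2] at p2 ⊢
        nlinarith
  have hsum : ∑ i, ∑ j, ((x i - x j) ^ 2 * (y i - y j) ^ 2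
      - (if i = c then (x j - x c) ^ 2 * max 0 ((y c - y j) ^ 2 - 1) else 0)
      - (if j = c then (x i - x c) ^ 2 * max 0 ((y c - y i) ^ 2 - 1) else 0)) ≤ Phi x y :=
    sum_le_sum fun i _ => sum_le_sum fun j _ => hpt i j
  have e1 : ∑ i, ∑ j, (if i = c then (x j - x c) ^ 2 * max 0 ((y c - y j) ^ 2 - 1) else 0)
      = ∑ k, (x k - x c) ^ 2 * max 0 ((y c - y k) ^ 2 - 1) := by
    rw [sum_comm]
    refine sum_congr rfl fun j _ => ?_
    rw [sum_ite_eq' univ c]
    simp
  have e2 : ∑ i, ∑ j, (if j = c then (x i - x c) ^ 2 * max 0 ((y c - y i) ^ 2 - 1) else 0)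
      = ∑ k, (x k - x c) ^ 2 * max 0 ((y c - y k) ^ 2 - 1) := by
    refine sum_congr rfl fun i _ => ?_
    rw [sum_ite_eq' univ c]
    simp
  simp only [sum_sub_distrib] at hsum
  rw [e1, e2, f1 h] at hsum
  have := l2 h hc
  nlinarith

/-- the case of small oscillation of `x` -/
theorem case12 {x y : V → ℝ} (h : Fr x y) (ha : ∀ i j, (x i - x j) ^ 2 ≤ 1) : 2 ≤ Phi x y := by
  have hne : ∃ a : V, y a ≠ 0 := by
    by_contra hcon
    push Not at hcon
    have := h.yy
    simp [hcon] at this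
  obtain ⟨a, ha0⟩ := hne
  by_cases hb : ∃ p q, 1 < (y p - y q) ^ 2
  · obtain ⟨c, hc⟩ := exists_center h.yy a
    obtain ⟨p, q, hpq⟩ := hb
    have hneg := bad_neg h.yy hpq
    have hyc : y c ≠ 0 := by
      rcases hc p q hpq with h1 | h1
      · rw [← h1]; rintro h2; rw [h2, zero_mul] at hneg; exact lt_irrefl _ hneg
      · rw [← h1]; rintro h2; rw [h2, mul_zero] at hneg; exact lt_irrefl _ hneg
    rcases lt_or_gt_of_ne hyc with h0 | h0
    · rw [← Phi_neg]
      refine case_center h.neg ha (c := c) (by linarith) ?_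
      intro i j hij
      apply hc
      nlinarith
    · exact case_center h ha h0 hc
  · push Not at hb
    have hpt : ∀ i j, (x i - x j) ^ 2 * (y i - y j) ^ 2
        ≤ min ((x i - x j) ^ 2) ((y i - y j) ^ 2) := by
      intro i j
      have := ha i j
      have := hb i j
      have hA0 := sq_nonneg (x i - x j)
      have hB0 := sq_nonneg (y i - y j)
      exact le_min (by nlinarith) (by nlinarith)
    have hsum : ∑ i, ∑ j, (x i - x j) ^ 2 * (y i - y j) ^ 2 ≤ Phi x y :=
      sum_le_sum fun i _ => sum_le_sum fun j _ => hpt i j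
    rw [f1 h] at hsum
    have hq0 : 0 ≤ (Fintype.card V : ℝ) * ∑ k, x k ^ 2 * y k ^ 2 :=
      mul_nonneg (Nat.cast_nonneg _) (sum_nonneg fun k _ => by positivity)
    linarith

/-- small oscillation of one of the two -/
theorem case12' {x y : V → ℝ} (h : Fr x y)
    (ha : (∀ i j, (x i - x j) ^ 2 ≤ 1) ∨ (∀ i j, (y i - y j) ^ 2 ≤ 1)) : 2 ≤ Phi x y := by
  rcases ha with ha | ha
  · exact case12 h ha
  · rw [← Phi_swap]
    exact case12 h.swap ha

end Pool.Agent.Y389.LS
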