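import Pool.Agent.Y389.LS.LemmaA

/-!
# Laplacian spread: both oscillations are large
-/

open Finset

namespace Pool.Agent.Y389.LS

variable {V : Type*} [Fintype V]

/-- the configuration `x c > 0 > x i`, `y v < 0 < y u` is contradictory -/
theorem optionA {g : V → V → ℝ} {x y : V → ℝ} {lam mu : ℝ} (h : Eig g x lam)
    (h' : Eig (fun i j => 1 - g i j) y mu) (hl : 0 ≤ lam) (hm : 0 ≤ mu) (hlm : lam + mu < 1)
    {v u c i : V} (hv : ∀ k, x k ≤ x v) (hu : ∀ k, x u ≤ x k) (hc : ∀ k, y k ≤ y c)
    (hi : ∀ k, y i ≤ y k) (hSx : 1 < x v - x u) (hSy : 1 < y c - y i)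
    (xc : 0 < x c) (xi : x i < 0) (yv : y v < 0) (yu : 0 < y u) : False := by
  classical
  have hlam : lam < 1 := by linarith
  have hmu : mu < 1 := by linarith
  have hxv0 : 0 < x v := lt_of_lt_of_le xc (hv c)
  have hxu0 : x u < 0 := lt_of_le_of_lt (hu i) xi
  have hyc0 : 0 < y c := lt_of_lt_of_le yu (hc u)
  have hyi0 : y i < 0 := lt_of_le_of_lt (hi v) yv
  have hav : 0 < (1 - lam) * x v := mul_pos (by linarith) hxv0
  have hau : (1 - lam) * x u < 0 := mul_neg_of_pos_of_neg (by linarith) hxu0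
  have hbc : 0 < (1 - mu) * y c := mul_pos (by linarith) hyc0
  have hbi : (1 - mu) * y i < 0 := mul_neg_of_pos_of_neg (by linarith) hyi0
  -- the four closeness facts
  have fa : ∀ k, g k v = 1 → 0 < x k := fun k hk => lt_of_lt_of_le hav (h.near_max hv hk)
  have fb : ∀ k, g k u = 1 → x k < 0 := fun k hk => lt_of_le_of_lt (h.near_min hu hk) hau
  have fc : ∀ k, g k c = 0 → 0 < y k := fun k hk =>
    lt_of_lt_of_le hbc (h'.near_max hc (by simp [hk]))
  have fd : ∀ k, g k i = 0 → y k < 0 := fun k hk =>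
    lt_of_le_of_lt (h'.near_min hi (by simp [hk])) hbi
  have one_of : ∀ k l, g k l ≠ 0 → g k l = 1 := fun k l hk => (h.zo k l).resolve_left hk
  have zero_of : ∀ k l, g k l ≠ 1 → g k l = 0 := fun k l hk => (h.zo k l).resolve_right hk
  have gci : g c i = 1 := one_of _ _ fun e => by
    have := fd c e; linarith
  have gvc : g v c = 1 := one_of _ _ fun e => by
    have := fc v e; linarith
  have gui : g u i = 1 := one_of _ _ fun e => by
    have := fd u e; linarith
  have gvu : g v u = 0 := zero_of _ _ fun e => by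
    have := fb v e; linarith
  have giv : g i v = 0 := zero_of _ _ fun e => by
    have := fa i e; linarith
  have gcu : g c u = 0 := zero_of _ _ fun e => by
    have := fb c e; linarith
  have gic : g i c = 1 := by rw [h.symm]; exact gci
  have gcv : g c v = 1 := by rw [h.symm]; exact gvc
  have giu : g i u = 1 := by rw [h.symm]; exact gui
  have guv : g u v = 0 := by rw [h.symm]; exact gvu
  have gvi : g v i = 0 := by rw [h.symm]; exact giv
  have guc : g u c = 0 := by rw [h.symm]; exact gcu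
  set Kv := univ.filter (fun k => g k c = 1 ∧ g k i = 0 ∧ x c ≤ x k) with hKv
  set Ku := univ.filter (fun k => g k i = 1 ∧ g k c = 0 ∧ x k ≤ x i) with hKu
  set Kc := univ.filter (fun k => g k u = 0 ∧ g k v = 1 ∧ y u ≤ y k) with hKc
  set Ki := univ.filter (fun k => g k v = 0 ∧ g k u = 1 ∧ y k ≤ y v) with hKi
  have vKv : v ∈ Kv := by simp only [hKv, mem_filter, mem_univ, true_and]; exact ⟨gvc, gvi, hv c⟩
  have uKu : u ∈ Ku := by simp only [hKu, mem_filter, mem_univ, true_and]; exact ⟨gui, guc, hu i⟩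
  have cKc : c ∈ Kc := by simp only [hKc, mem_filter, mem_univ, true_and]; exact ⟨gcu, gcv, hc u⟩
  have iKi : i ∈ Ki := by simp only [hKi, mem_filter, mem_univ, true_and]; exact ⟨giv, giu, hi v⟩
  have cardN : 2 ≤ Kv.card + Ku.card := by
    have h1 : 1 ≤ Kv.card := card_pos.2 ⟨v, vKv⟩
    have h2 : 1 ≤ Ku.card := card_pos.2 ⟨u, uKu⟩
    omega
  have cardM : 2 ≤ Kc.card + Ki.card := by
    have h1 : 1 ≤ Kc.card := card_pos.2 ⟨c, cKc⟩
    have h2 : 1 ≤ Ki.card := card_pos.2 ⟨i, iKi⟩
    omega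
  have hor : ∀ k, g k c = 1 ∨ g k i = 1 := by
    intro k
    by_contra hcon
    push Not at hcon
    have h1 := fc k (zero_of _ _ hcon.1)
    have h2 := fd k (zero_of _ _ hcon.2)
    linarith
  have key1 := lemA h hv hu xc xi gci gvc gui hor hlam hSx Kv Ku Kc Ki
    (fun k => by simp only [hKv, mem_filter, mem_univ, true_and])
    (fun k => by simp only [hKu, mem_filter, mem_univ, true_and])
    (fun k hk => by
      simp only [hKc, mem_filter, mem_univ, true_and] at hk
      refine ⟨one_of _ _ fun e => ?_, hk.2.1⟩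
      have := fd k e
      linarith [hk.2.2])
    cKc
    (fun k hk => by
      simp only [hKi, mem_filter, mem_univ, true_and] at hk
      refine ⟨one_of _ _ fun e => ?_, hk.2.1⟩
      have := fc k e
      linarith [hk.2.2])
    iKi (by omega)
  have key2 := lemA h' hc hi yu yv (c := u) (i := v) (by simp [guv]) (by simp [gcu])
    (by simp [giv])
    (fun k => by
      simp only [sub_eq_self]
      by_contra hcon
      push Not at hcon
      have h1 := fb k (one_of _ _ hcon.1)
      have h2 := fa k (one_of _ _ hcon.2)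
      linarith)
    hmu hSy Kc Ki Ku Kv
    (fun k => by
      simp only [hKc, mem_filter, mem_univ, true_and, sub_eq_self, sub_eq_zero]
      exact ⟨fun ⟨a, b, c⟩ => ⟨a, b.symm, c⟩, fun ⟨a, b, c⟩ => ⟨a, b.symm, c⟩⟩)
    (fun k => by
      simp only [hKi, mem_filter, mem_univ, true_and, sub_eq_self, sub_eq_zero]
      exact ⟨fun ⟨a, b, c⟩ => ⟨a, b.symm, c⟩, fun ⟨a, b, c⟩ => ⟨a, b.symm, c⟩⟩)
    (fun k hk => by
      simp only [hKu, mem_filter, mem_univ, true_and] at hk
      simp only [sub_eq_self]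
      refine ⟨zero_of _ _ fun e => ?_, hk.2.1⟩
      have := fa k e
      linarith [hk.2.2])
    uKu
    (fun k hk => by
      simp only [hKv, mem_filter, mem_univ, true_and] at hk
      simp only [sub_eq_self]
      refine ⟨zero_of _ _ fun e => ?_, hk.2.1⟩
      have := fb k e
      linarith [hk.2.2])
    vKv (by omega)
  have e1 : Ku.card + Kv.card = Kv.card + Ku.card := add_comm _ _
  rw [e1] at key2
  exact num hl hm cardN cardM hlm key1 key2

/-- both oscillations large: contradiction from stationarity -/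
theorem case3_core {g : V → V → ℝ} {x y : V → ℝ} {lam mu : ℝ} (h : Eig g x lam)
    (h' : Eig (fun i j => 1 - g i j) y mu) (hl : 0 ≤ lam) (hm : 0 ≤ mu) (hlm : lam + mu < 1)
    {v u c i : V} (hv : ∀ k, x k ≤ x v) (hu : ∀ k, x u ≤ x k) (hc : ∀ k, y k ≤ y c)
    (hi : ∀ k, y i ≤ y k) (hSx : 1 < x v - x u) (hSy : 1 < y c - y i)
    (xv : 0 < x v) (xu : x u < 0) (yc : 0 < y c) (yi : y i < 0) : False := by
  classical
  have hlam : lam < 1 := by linarith
  have hmu : mu < 1 := by linarith
  have hav : 0 < (1 - lam) * x v := mul_pos (by linarith) xv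
  have hau : (1 - lam) * x u < 0 := mul_neg_of_pos_of_neg (by linarith) xu
  have hbc : 0 < (1 - mu) * y c := mul_pos (by linarith) yc
  have hbi : (1 - mu) * y i < 0 := mul_neg_of_pos_of_neg (by linarith) yi
  have fa : ∀ k, g k v = 1 → 0 < x k := fun k hk => lt_of_lt_of_le hav (h.near_max hv hk)
  have fb : ∀ k, g k u = 1 → x k < 0 := fun k hk => lt_of_le_of_lt (h.near_min hu hk) hau
  have fc : ∀ k, g k c = 0 → 0 < y k := fun k hk =>
    lt_of_lt_of_le hbc (h'.near_max hc (by simp [hk]))
  have fd : ∀ k, g k i = 0 → y k < 0 := fun k hk =>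
    lt_of_le_of_lt (h'.near_min hi (by simp [hk])) hbi
  have n1 : 0 < x i ∨ y v < 0 := by
    rcases h.zo v i with e | e
    · exact Or.inr (fd v e)
    · exact Or.inl (fa i (by rw [h.symm]; exact e))
  have n2 : x i < 0 ∨ y u < 0 := by
    rcases h.zo u i with e | e
    · exact Or.inr (fd u e)
    · exact Or.inl (fb i (by rw [h.symm]; exact e))
  have n3 : 0 < x c ∨ 0 < y v := by
    rcases h.zo v c with e | e
    · exact Or.inr (fc v e)
    · exact Or.inl (fa c (by rw [h.symm]; exact e))
  have n4 : x c < 0 ∨ 0 < y u := by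
    rcases h.zo u c with e | e
    · exact Or.inr (fc u e)
    · exact Or.inl (fb c (by rw [h.symm]; exact e))
  rcases lt_or_ge 0 (x i) with hxi | hxi
  · have yu : y u < 0 := n2.resolve_left (by linarith)
    have xc : x c < 0 := n4.resolve_right (by linarith)
    have yv : 0 < y v := n3.resolve_left (by linarith)
    exact optionA h.neg h' hl hm hlm (v := u) (u := v) (c := c) (i := i)
      (fun k => by simpa using hu k) (fun k => by simpa using hv k) hc hi (by linarith) hSy
      (by linarith) (by linarith) yu yv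
  · have yv : y v < 0 := n1.resolve_left (by linarith)
    have xc : 0 < x c := n3.resolve_right (by linarith)
    have yu : 0 < y u := n4.resolve_left (by linarith)
    have xi : x i < 0 := n2.resolve_right (by linarith)
    exact optionA h h' hl hm hlm hv hu hc hi hSx hSy xc xi yv yu

theorem exists_extremes {x : V → ℝ} (hx0 : ∑ i, x i = 0) (hx : ∃ i j, 1 < (x i - x j) ^ 2) :
    ∃ v u, (∀ k, x k ≤ x v) ∧ (∀ k, x u ≤ x k) ∧ 1 < x v - x u ∧ 0 < x v ∧ x u < 0 := by
  obtain ⟨p, q, hpq⟩ := hx
  have hne : (univ : Finset V).Nonempty := ⟨p, mem_univ p⟩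
  obtain ⟨v, -, hv⟩ := exists_max_image univ x hne
  obtain ⟨u, -, hu⟩ := exists_min_image univ x hne
  have hv' : ∀ k, x k ≤ x v := fun k => hv k (mem_univ k)
  have hu' : ∀ k, x u ≤ x k := fun k => hu k (mem_univ k)
  have hS : 1 < x v - x u := by
    have a1 := hv' p
    have a2 := hv' q
    have a3 := hu' p
    have a4 := hu' q
    by_contra hcon
    push Not at hcon
    have b1 : x p - x q ≤ 1 := by linarith
    have b2 : -1 ≤ x p - x q := by linarith
    nlinarith
  refine ⟨v, u, hv', hu', hS, ?_, ?_⟩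
  · by_contra hcon
    push Not at hcon
    have h1 : ∀ k ∈ (univ : Finset V), x k ≤ 0 := fun k _ => (hv' k).trans hcon
    have h2 := (sum_eq_zero_iff_of_nonpos h1).1 hx0
    have h3 := h2 v (mem_univ v)
    have h4 := h2 u (mem_univ u)
    linarith
  · by_contra hcon
    push Not at hcon
    have h1 : ∀ k ∈ (univ : Finset V), 0 ≤ x k := fun k _ => hcon.trans (hu' k)
    have h2 := (sum_eq_zero_iff_of_nonneg h1).1 hx0
    have h3 := h2 v (mem_univ v)
    have h4 := h2 u (mem_univ u)
    linarith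

/-- at a minimiser with value `< 2`, one of the oscillations is small -/
theorem case3 {x y : V → ℝ} (h : Fr x y)
    (hmin : ∀ x' y' : V → ℝ, Fr x' y' → Phi x y ≤ Phi x' y') (hlt : Phi x y < 2)
    (hx : ∃ i j, 1 < (x i - x j) ^ 2) (hy : ∃ i j, 1 < (y i - y j) ^ 2) : False := by
  classical
  set g : V → V → ℝ := fun i j => if (x i - x j) ^ 2 ≤ (y i - y j) ^ 2 then 1 else 0 with hg
  have hval : BB g x x + BB (fun i j => 1 - g i j) y y = Phi x y := by
    simp only [BB, Phi, ← sum_add_distrib]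
    refine sum_congr rfl fun i _ => sum_congr rfl fun j _ => ?_
    simp only [hg]
    split_ifs with hij
    · rw [min_eq_left hij]; ring
    · rw [min_eq_right (le_of_not_ge hij)]; ring
  have hzo : ∀ i j, g i j = 0 ∨ g i j = 1 := by
    intro i j
    simp only [hg]
    split_ifs
    · right; rfl
    · left; rfl
  have hsymm : ∀ i j, g i j = g j i := by
    intro i j
    simp only [hg]
    have e1 : (x i - x j) ^ 2 = (x j - x i) ^ 2 := by ring
    have e2 : (y i - y j) ^ 2 = (y j - y i) ^ 2 := by ring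
    rw [e1, e2]
  have hM : Mini g x y := by
    refine ⟨h, fun x' y' h' => ?_⟩
    rw [hval]
    refine (hmin x' y' h').trans ?_
    simp only [BB, Phi, ← sum_add_distrib]
    refine sum_le_sum fun i _ => sum_le_sum fun j _ => ?_
    rcases hzo i j with e | e
    · rw [e]
      refine (min_le_right _ _).trans (le_of_eq ?_)
      ring
    · rw [e]
      refine (min_le_left _ _).trans (le_of_eq ?_)
      ring
  have hE := hM.toEig hsymm hzo
  have hE' := hM.swap.toEig (fun i j => by rw [hsymm i j])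
    (fun i j => by
      rcases hzo i j with e | e
      · right; rw [e]; ring
      · left; rw [e]; ring)
  have hg0 : ∀ i j, 0 ≤ g i j := fun i j => by
    rcases hzo i j with e | e <;> rw [e]; norm_num
  have hg1 : ∀ i j, 0 ≤ 1 - g i j := fun i j => by
    rcases hzo i j with e | e <;> rw [e] <;> norm_num
  have hl := BB_nonneg hg0 x
  have hm := BB_nonneg hg1 y
  obtain ⟨v, u, hv, hu, hSx, xv, xu⟩ := exists_extremes h.sx hx
  obtain ⟨c, i, hc, hi, hSy, yc, yi⟩ := exists_extremes h.sy hy
  exact case3_core hE hE' (by linarith) (by linarith) (by linarith) hv hu hc hi hSx hSy xv xu yc yi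

theorem exists_min_frame {x0 y0 : V → ℝ} (h0 : Fr x0 y0) :
    ∃ x y : V → ℝ, Fr x y ∧ ∀ x' y' : V → ℝ, Fr x' y' → Phi x y ≤ Phi x' y' := by
  set K : Set ((V → ℝ) × (V → ℝ)) := {p | Fr p.1 p.2} with hK
  have hclosed : IsClosed K := by
    have e : K = {p | ∑ i, p.1 i = 0} ∩ ({p | ∑ i, p.2 i = 0} ∩ ({p | ∑ i, p.1 i ^ 2 = 1} ∩
        ({p | ∑ i, p.2 i ^ 2 = 1} ∩ {p | ∑ i, p.1 i * p.2 i = 0}))) := by
      ext p
      simp only [hK, Set.mem_setOf_eq, Set.mem_inter_iff]
      exact ⟨fun h => ⟨h.sx, h.sy, h.xx, h.yy, h.xy⟩, fun ⟨a, b, c, d, e⟩ => ⟨a, b, c, d, e⟩⟩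
    rw [e]
    refine IsClosed.inter (isClosed_eq (by fun_prop) (by fun_prop)) ?_
    refine IsClosed.inter (isClosed_eq (by fun_prop) (by fun_prop)) ?_
    refine IsClosed.inter (isClosed_eq (by fun_prop) (by fun_prop)) ?_
    refine IsClosed.inter (isClosed_eq (by fun_prop) (by fun_prop)) ?_
    exact isClosed_eq (by fun_prop) (by fun_prop)
  have hb : ∀ z : V → ℝ, ∑ i, z i ^ 2 = 1 → ‖z‖ ≤ 1 := by
    intro z hz
    rw [pi_norm_le_iff_of_nonneg zero_le_one]
    intro i
    rw [Real.norm_eq_abs]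
    have h1 : z i ^ 2 ≤ 1 := by
      rw [← hz]
      exact single_le_sum (f := fun i => z i ^ 2) (fun j _ => sq_nonneg _) (mem_univ i)
    exact abs_le_one_iff_mul_self_le_one.2 (by nlinarith)
  have hbdd : Bornology.IsBounded K := by
    rw [isBounded_iff_forall_norm_le]
    refine ⟨1, fun p hp => ?_⟩
    have hp' : Fr p.1 p.2 := hp
    rw [Prod.norm_def]
    exact max_le (hb _ hp'.xx) (hb _ hp'.yy)
  have hcomp : IsCompact K := Metric.isCompact_of_isClosed_isBounded hclosed hbdd
  have hcont : ContinuousOn (fun p : (V → ℝ) × (V → ℝ) => Phi p.1 p.2) K := by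
    apply Continuous.continuousOn
    simp only [Phi]
    refine continuous_finset_sum _ fun i _ => continuous_finset_sum _ fun j _ => ?_
    exact Continuous.min (by fun_prop) (by fun_prop)
  obtain ⟨p, hp, hmin⟩ := hcomp.exists_isMinOn ⟨(x0, y0), h0⟩ hcont
  refine ⟨p.1, p.2, hp, fun x' y' h' => ?_⟩
  exact (isMinOn_iff.1 hmin) (x', y') h'

/-- **The analytic inequality.** -/
theorem two_le_Phi {x y : V → ℝ} (h : Fr x y) : 2 ≤ Phi x y := by
  classical
  by_contra hcon
  push Not at hcon
  obtain ⟨x', y', h', hmin⟩ := exists_min_frame h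
  have hlt : Phi x' y' < 2 := lt_of_le_of_lt (hmin x y h) hcon
  by_cases hc : (∀ i j, (x' i - x' j) ^ 2 ≤ 1) ∨ (∀ i j, (y' i - y' j) ^ 2 ≤ 1)
  · have := case12' h' hc
    linarith
  · push Not at hc
    exact case3 h' hmin hlt hc.1 hc.2

end Pool.Agent.Y389.LS
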