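import Mathlib

/-!
# Laplacian spread: the analytic inequality, first part

`x, y : V → ℝ` orthonormal and orthogonal to the constants.  We study
`∑ i, ∑ j, min ((x i - x j)^2) ((y i - y j)^2)`.
-/

open Finset

namespace Pool.Agent.Y389.LS

variable {V : Type*} [Fintype V] [DecidableEq V]

/-- `x, y` are orthonormal and orthogonal to the constants -/
structure Fr (x y : V → ℝ) : Prop where
  sx : ∑ i, x i = 0
  sy : ∑ i, y i = 0
  xx : ∑ i, x i ^ 2 = 1
  yy : ∑ i, y i ^ 2 = 1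
  xy : ∑ i, x i * y i = 0

omit [DecidableEq V] in
theorem Fr.swap {x y : V → ℝ} (h : Fr x y) : Fr y x :=
  ⟨h.sy, h.sx, h.yy, h.xx, by simpa [mul_comm] using h.xy⟩

omit [DecidableEq V] in
theorem Fr.neg {x y : V → ℝ} (h : Fr x y) : Fr x (fun i => - y i) :=
  ⟨h.sx, by simp [h.sy], h.xx, by simp [h.yy], by simp [h.xy]⟩

/-- the main quantity -/
def Phi (x y : V → ℝ) : ℝ := ∑ i, ∑ j, min ((x i - x j) ^ 2) ((y i - y j) ^ 2)

omit [DecidableEq V] in
theorem Phi_swap (x y : V → ℝ) : Phi y x = Phi x y := by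
  simp only [Phi, min_comm]

omit [DecidableEq V] in
theorem Phi_neg (x y : V → ℝ) : Phi x (fun i => - y i) = Phi x y := by
  simp only [Phi]
  refine sum_congr rfl fun i _ => sum_congr rfl fun j _ => ?_
  congr 1
  ring

omit [DecidableEq V] in
theorem f1 {x y : V → ℝ} (h : Fr x y) :
    ∑ i, ∑ j, (x i - x j) ^ 2 * (y i - y j) ^ 2
      = 2 + 2 * (Fintype.card V : ℝ) * ∑ i, x i ^ 2 * y i ^ 2 := by
  have h1 : ∀ i, ∑ j, (x i - x j) ^ 2 * (y i - y j) ^ 2
      = (Fintype.card V : ℝ) * (x i ^ 2 * y i ^ 2) + x i ^ 2 + y i ^ 2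
        + (∑ j, x j ^ 2 * y j ^ 2) - y i * (2 * ∑ j, x j ^ 2 * y j)
        - x i * (2 * ∑ j, x j * y j ^ 2) := by
    intro i
    have h2 : ∀ j, (x i - x j) ^ 2 * (y i - y j) ^ 2
        = x i ^ 2 * y i ^ 2 + x i ^ 2 * y j ^ 2 + y i ^ 2 * x j ^ 2 + x j ^ 2 * y j ^ 2
          + (4 * x i * y i) * (x j * y j) - (2 * x i ^ 2 * y i) * y j
          - (2 * y i) * (x j ^ 2 * y j) - (2 * x i * y i ^ 2) * x j
          - (2 * x i) * (x j * y j ^ 2) := by
      intro j; ring
    simp only [h2, sum_sub_distrib, sum_add_distrib, ← mul_sum, h.xx, h.yy, h.xy, h.sx, h.sy,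
      sum_const, card_univ, nsmul_eq_mul]
    ring
  simp only [h1, sum_sub_distrib, sum_add_distrib, ← mul_sum, ← sum_mul, h.xx, h.yy, h.sx, h.sy,
    sum_const, card_univ, nsmul_eq_mul]
  ring

/-- a frame lives on at least three points -/
theorem exists_third {x y : V → ℝ} (h : Fr x y) (c i : V) (hci : c ≠ i) :
    ∃ k, k ≠ c ∧ k ≠ i := by
  by_contra hcon
  push Not at hcon
  have hu : (univ : Finset V) = {c, i} := by
    ext k
    simp only [mem_univ, mem_insert, mem_singleton, true_iff]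
    by_cases hk : k = c
    · exact Or.inl hk
    · exact Or.inr (hcon k hk)
  have h1 := h.sx
  have h2 := h.sy
  have h3 := h.xx
  have h4 := h.yy
  have h5 := h.xy
  rw [hu, sum_pair hci] at h1 h2 h3 h4 h5
  have e1 : x i = - x c := by linarith
  have e2 : y i = - y c := by linarith
  rw [e1] at h3 h5
  rw [e2] at h4 h5
  have e3 : x c ^ 2 = 1 / 2 := by nlinarith
  have e4 : y c ^ 2 = 1 / 2 := by nlinarith
  have e5 : x c * y c = 0 := by nlinarith
  have e6 : x c ^ 2 * y c ^ 2 = 0 := by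
    rw [← mul_pow, e5]; ring
  rw [e3, e4] at e6
  norm_num at e6

theorem card_ge {x y : V → ℝ} (h : Fr x y) (c i : V) (hci : c ≠ i) :
    (3 : ℝ) ≤ Fintype.card V := by
  obtain ⟨k, hk1, hk2⟩ := exists_third h c i hci
  have h1 : ({c, i, k} : Finset V).card = 3 := by
    rw [card_insert_of_notMem, card_insert_of_notMem, card_singleton]
    · simpa using hk2.symm
    · simp only [mem_insert, mem_singleton, not_or]
      exact ⟨hci, hk1.symm⟩
  have h2 : 3 ≤ Fintype.card V := by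
    rw [← h1]
    exact card_le_univ _
  exact_mod_cast h2

/-- two disjoint pairs at distance `> 1` are impossible -/
theorem bad_disjoint {y : V → ℝ} (h : ∑ i, y i ^ 2 = 1) {p q p' q' : V}
    (h1 : 1 < (y p - y q) ^ 2) (h2 : 1 < (y p' - y q') ^ 2)
    (d1 : p ≠ p') (d2 : p ≠ q') (d3 : q ≠ p') (d4 : q ≠ q') : False := by
  have hpq : p ≠ q := by
    rintro rfl
    norm_num at h1
  have hpq' : p' ≠ q' := by
    rintro rfl
    norm_num at h2
  have h3 : ∑ i ∈ ({p, q, p', q'} : Finset V), y i ^ 2 ≤ 1 := by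
    rw [← h]
    exact sum_le_sum_of_subset_of_nonneg (subset_univ _) (fun i _ _ => sq_nonneg _)
  rw [sum_insert, sum_insert, sum_pair hpq'] at h3
  · nlinarith [sq_nonneg (y p + y q), sq_nonneg (y p' + y q')]
  · simp [d3, d4]
  · simp [hpq, d1, d2]

omit [DecidableEq V] in
theorem le_one_of_sum {y : V → ℝ} (h : ∑ i, y i ^ 2 = 1) (s : Finset V) :
    ∑ i ∈ s, y i ^ 2 ≤ 1 := by
  rw [← h]
  exact sum_le_sum_of_subset_of_nonneg (subset_univ _) (fun i _ _ => sq_nonneg _)

theorem pair_sq {y : V → ℝ} (h : ∑ i, y i ^ 2 = 1) {p q : V} (hpq : p ≠ q) :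
    y p ^ 2 + y q ^ 2 ≤ 1 := by
  have := le_one_of_sum h {p, q}
  rwa [sum_pair hpq] at this

theorem bad_neg {y : V → ℝ} (h : ∑ i, y i ^ 2 = 1) {p q : V}
    (h1 : 1 < (y p - y q) ^ 2) : y p * y q < 0 := by
  have hpq : p ≠ q := by
    rintro rfl
    norm_num at h1
  have := pair_sq h hpq
  nlinarith

/-- all pairs at distance `> 1` share a vertex -/
theorem exists_center {y : V → ℝ} (h : ∑ i, y i ^ 2 = 1) (a : V) :
    ∃ c, ∀ i j, 1 < (y i - y j) ^ 2 → i = c ∨ j = c := by
  have hne : (univ : Finset V).Nonempty := ⟨a, mem_univ a⟩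
  obtain ⟨c0, -, hc0⟩ := exists_max_image univ y hne
  obtain ⟨i0, -, hi0⟩ := exists_min_image univ y hne
  by_cases hA : ∀ i j, 1 < (y i - y j) ^ 2 → i = c0 ∨ j = c0
  · exact ⟨c0, hA⟩
  refine ⟨i0, ?_⟩
  -- an ordered bad pair avoiding c0
  have hA' : ∃ p q, 1 < (y p - y q) ^ 2 ∧ p ≠ c0 ∧ 0 < y p ∧ y q < 0 := by
    push Not at hA
    obtain ⟨i, j, hij, hi, hj⟩ := hA
    have hneg := bad_neg h hij
    rcases lt_or_ge 0 (y i) with h0 | h0
    · exact ⟨i, j, hij, hi, h0, by nlinarith⟩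
    · have h1 : 0 < y j := by
        by_contra hcon
        push Not at hcon
        nlinarith
      refine ⟨j, i, by nlinarith, hj, h1, ?_⟩
      rcases lt_or_eq_of_le h0 with h2 | h2
      · exact h2
      · rw [h2, zero_mul] at hneg
        exact absurd hneg (lt_irrefl _)
  obtain ⟨p, q, hpq, hpc, hp0, hq0⟩ := hA'
  have hkey : ∀ p' q', 1 < (y p' - y q') ^ 2 → 0 < y p' → y q' < 0 → q' = i0 := by
    intro p' q' hb hp' hq'
    by_contra hne'
    have e1 : 1 < (y c0 - y q') ^ 2 := by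
      have := hc0 p' (mem_univ _)
      nlinarith
    have e2 : 1 < (y p - y i0) ^ 2 := by
      have := hi0 q (mem_univ _)
      nlinarith
    have f1 : c0 ≠ i0 := by
      rintro rfl
      have := hc0 p (mem_univ _)
      have := hi0 q (mem_univ _)
      linarith
    have f2 : q' ≠ p := by
      rintro rfl
      linarith
    exact bad_disjoint h e1 e2 (fun e => hpc e.symm) f1 f2 hne'
  intro i j hij
  have hneg := bad_neg h hij
  rcases lt_or_ge 0 (y i) with h0 | h0
  · exact Or.inr (hkey i j hij h0 (by nlinarith))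
  · left
    have h1 : 0 < y j := by
      by_contra hcon
      push Not at hcon
      nlinarith
    refine hkey j i (by nlinarith) h1 ?_
    rcases lt_or_eq_of_le h0 with h2 | h2
    · exact h2
    · rw [h2, zero_mul] at hneg
      exact absurd hneg (lt_irrefl _)

end Pool.Agent.Y389.LS
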