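import Pool.Agent.Y389.LS.Stat

/-!
# Laplacian spread: the structural lemma for zero-one eigenvector data
-/

open Finset

namespace Pool.Agent.Y389.LS

variable {V : Type*} [Fintype V] [DecidableEq V]

/-- numerical contradiction, unsymmetric form -/
theorem num_aux {lam mu N M : ℝ} (hl : 0 ≤ lam) (hN : 2 ≤ N) (hM : M = 2 ∨ 3 ≤ M)
    (hlm : lam ≤ mu) (hsum : lam + mu < 1)
    (h1 : (1 - lam) ^ 2 * ((M - 1) + (2 - lam) ^ 2 / N) ≤ lam)
    (h2 : (1 - mu) ^ 2 * ((N - 1) + (2 - mu) ^ 2 / M) ≤ mu) : False := by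
  have hl2 : lam < 1 / 2 := by linarith
  have hN0 : 0 < N := by linarith
  have hdiv : 0 ≤ (2 - lam) ^ 2 / N := by positivity
  rcases hM with hM | hM
  · subst hM
    set t := lam with ht
    -- first inequality, cleared
    have e1 : (1 - t) ^ 2 * (2 - t) ^ 2 ≤ N * (t - (1 - t) ^ 2) := by
      have h3 : N * ((1 - t) ^ 2 * ((2 - 1) + (2 - t) ^ 2 / N)) ≤ N * t :=
        mul_le_mul_of_nonneg_left h1 hN0.le
      have h4 : N * ((1 - t) ^ 2 * ((2 - 1) + (2 - t) ^ 2 / N))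
          = N * (1 - t) ^ 2 + (1 - t) ^ 2 * (2 - t) ^ 2 := by
        field_simp
        ring
      rw [h4] at h3
      linarith
    have ha2 : (1 / 4 : ℝ) ≤ (1 - t) ^ 2 := by nlinarith
    have ha3 : (9 / 4 : ℝ) ≤ (2 - t) ^ 2 := by nlinarith
    have hL : (9 / 16 : ℝ) ≤ (1 - t) ^ 2 * (2 - t) ^ 2 := by nlinarith
    have hA : 0 < t - (1 - t) ^ 2 := by
      by_contra hcon
      push Not at hcon
      have : N * (t - (1 - t) ^ 2) ≤ 0 := mul_nonpos_of_nonneg_of_nonpos hN0.le hcon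
      linarith
    have ht3 : 1 / 3 < t := by nlinarith
    -- second inequality
    have e2 : t ^ 2 * ((N - 1) + (1 + t) ^ 2 / 2) < 1 - t := by
      have hb : t < 1 - mu := by linarith
      have hb2 : t ^ 2 ≤ (1 - mu) ^ 2 := by nlinarith
      have hb3 : (1 + t) ^ 2 ≤ (2 - mu) ^ 2 := by nlinarith
      have hb4 : (N - 1) + (1 + t) ^ 2 / 2 ≤ (N - 1) + (2 - mu) ^ 2 / 2 := by linarith
      have hb5 : 0 ≤ (N - 1) + (1 + t) ^ 2 / 2 := by nlinarith [sq_nonneg (1 + t)]
      have hb6 : t ^ 2 * ((N - 1) + (1 + t) ^ 2 / 2)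
          ≤ (1 - mu) ^ 2 * ((N - 1) + (2 - mu) ^ 2 / 2) :=
        mul_le_mul hb2 hb4 hb5 (sq_nonneg _)
      linarith
    -- combine
    have e3 : (t - (1 - t) ^ 2) * (t ^ 2 * ((N - 1) + (1 + t) ^ 2 / 2))
        ≤ (t - (1 - t) ^ 2) * (1 - t) := mul_le_mul_of_nonneg_left e2.le hA.le
    have e4 : t ^ 2 * ((1 - t) ^ 2 * (2 - t) ^ 2) ≤ t ^ 2 * (N * (t - (1 - t) ^ 2)) :=
      mul_le_mul_of_nonneg_left e1 (sq_nonneg _)
    have e5 : (t - (1 - t) ^ 2) * (1 - t) ≤ t ^ 2 / 2 := by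
      have : 0 ≤ (1 - 2 * t) * (1 - 2 * t + t ^ 2 / 2) := by
        apply mul_nonneg
        · linarith
        · nlinarith [sq_nonneg t]
      nlinarith
    have e6 : (t - (1 - t) ^ 2) * (1 / 2 - t - t ^ 2 / 2) ≤ 1 / 24 := by
      have h5 : t - (1 - t) ^ 2 ≤ 1 / 4 := by nlinarith
      have h6 : 1 / 2 - t - t ^ 2 / 2 ≤ 1 / 6 := by nlinarith
      nlinarith
    have e7 : t ^ 2 * ((t - (1 - t) ^ 2) * (1 / 2 - t - t ^ 2 / 2)) ≤ t ^ 2 * (1 / 24) :=
      mul_le_mul_of_nonneg_left e6 (sq_nonneg _)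
    have e8 : t ^ 2 * (9 / 16) ≤ t ^ 2 * ((1 - t) ^ 2 * (2 - t) ^ 2) :=
      mul_le_mul_of_nonneg_left hL (sq_nonneg _)
    have e9 : (t - (1 - t) ^ 2) * (t ^ 2 * ((N - 1) + (1 + t) ^ 2 / 2))
        = t ^ 2 * (N * (t - (1 - t) ^ 2))
          - t ^ 2 * ((t - (1 - t) ^ 2) * (1 / 2 - t - t ^ 2 / 2)) := by ring
    have ht2 : 0 < t ^ 2 := by positivity
    rw [e9] at e3
    linarith
  · have h3 : (1 - lam) ^ 2 * 2 ≤ (1 - lam) ^ 2 * ((M - 1) + (2 - lam) ^ 2 / N) :=
      mul_le_mul_of_nonneg_left (by linarith) (sq_nonneg _)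
    nlinarith

/-- numerical contradiction -/
theorem num {lam mu : ℝ} {N M : ℕ} (hl : 0 ≤ lam) (hm : 0 ≤ mu) (hN : 2 ≤ N) (hM : 2 ≤ M)
    (hsum : lam + mu < 1)
    (h1 : (1 - lam) ^ 2 * (((M : ℝ) - 1) + (2 - lam) ^ 2 / N) ≤ lam)
    (h2 : (1 - mu) ^ 2 * (((N : ℝ) - 1) + (2 - mu) ^ 2 / M) ≤ mu) : False := by
  have hN' : (2 : ℝ) ≤ N := by exact_mod_cast hN
  have hM' : (2 : ℝ) ≤ M := by exact_mod_cast hM
  have hM2 : (M : ℝ) = 2 ∨ (3 : ℝ) ≤ M := by
    have : M = 2 ∨ 3 ≤ M := by omega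
    rcases this with h | h
    · left; exact_mod_cast h
    · right; exact_mod_cast h
  have hN2 : (N : ℝ) = 2 ∨ (3 : ℝ) ≤ N := by
    have : N = 2 ∨ 3 ≤ N := by omega
    rcases this with h | h
    · left; exact_mod_cast h
    · right; exact_mod_cast h
  rcases le_total lam mu with h | h
  · exact num_aux hl hN' hM2 h hsum h1 h2
  · exact num_aux hm hM' hN2 h (by linarith) h2 h1

omit [DecidableEq V] in
/-- neighbours of the maximum -/
theorem Eig.near_max {g : V → V → ℝ} {x : V → ℝ} {lam : ℝ} (h : Eig g x lam) {v : V}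
    (hv : ∀ k, x k ≤ x v) {k : V} (hk : g k v = 1) : (1 - lam) * x v ≤ x k := by
  have h1 := h.eig v
  have h2 : g v k * (x v - x k) ≤ ∑ j, g v j * (x v - x j) := by
    refine single_le_sum (f := fun j => g v j * (x v - x j)) (fun j _ => ?_) (mem_univ k)
    have := hv j
    rcases h.zo v j with h3 | h3
    · simp [h3]
    · simp [h3, this]
  rw [h.symm v k, hk, h1] at h2
  linarith

omit [DecidableEq V] in
/-- neighbours of the minimum -/
theorem Eig.near_min {g : V → V → ℝ} {x : V → ℝ} {lam : ℝ} (h : Eig g x lam) {u : V}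
    (hu : ∀ k, x u ≤ x k) {k : V} (hk : g k u = 1) : x k ≤ (1 - lam) * x u := by
  have h1 := h.neg.near_max (v := u) (k := k) (fun j => by simpa using hu j) hk
  linarith

/-- a row bound -/
theorem row_bound (G : V → ℝ) (hG : ∀ k, 0 ≤ G k) {i : V} {D M : ℝ} (hD : D ≤ G i)
    (K A : Finset V) (iA : i ∈ A) (hKA : Disjoint K A) (F : V → ℝ)
    (hK : ∀ k ∈ K, F k ≤ G k) (hA : ∀ k ∈ A, k ≠ i → M ≤ G k) :
    D + ∑ k ∈ K, F k + ((A.card : ℝ) - 1) * M ≤ ∑ k, G k := by
  have h1 : ∑ k ∈ K ∪ A, G k ≤ ∑ k, G k :=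
    sum_le_sum_of_subset_of_nonneg (subset_univ _) (fun k _ _ => hG k)
  rw [sum_union hKA] at h1
  have h2 : ∑ k ∈ K, F k ≤ ∑ k ∈ K, G k := sum_le_sum hK
  have h3 : ∑ k ∈ A, G k = G i + ∑ k ∈ A.erase i, G k := (add_sum_erase A G iA).symm
  have h4 : ((A.card : ℝ) - 1) * M ≤ ∑ k ∈ A.erase i, G k := by
    have h5 : ∑ _k ∈ A.erase i, M ≤ ∑ k ∈ A.erase i, G k :=
      sum_le_sum fun k hk => hA k (mem_of_mem_erase hk) (ne_of_mem_erase hk)
    rw [sum_const, card_erase_of_mem iA, nsmul_eq_mul] at h5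
    have h6 : 1 ≤ A.card := card_pos.2 ⟨i, iA⟩
    rw [Nat.cast_sub h6] at h5
    simpa using h5
  linarith

/-- two rows of a symmetric nonnegative array -/
theorem two_rows (G : V → V → ℝ) (hG : ∀ k l, 0 ≤ G k l) (hs : ∀ k l, G k l = G l k) {c i : V}
    (hci : c ≠ i) (hcc : G c c = 0) (hii : G i i = 0) :
    2 * ∑ k, G k c + 2 * ∑ k, G k i - 2 * G c i ≤ ∑ k, ∑ l, G k l := by
  have h1 : ∑ k, ∑ l, G k l = ∑ l, G c l + (∑ l, G i l
      + ∑ k ∈ (univ.erase c).erase i, ∑ l, G k l) := by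
    rw [add_sum_erase (univ.erase c) (fun k => ∑ l, G k l) (mem_erase.2 ⟨hci.symm, mem_univ i⟩),
      add_sum_erase univ (fun k => ∑ l, G k l) (mem_univ c)]
  have h2 : ∑ k ∈ (univ.erase c).erase i, (G k c + G k i)
      ≤ ∑ k ∈ (univ.erase c).erase i, ∑ l, G k l := by
    refine sum_le_sum fun k _ => ?_
    have h3 : ∑ l ∈ ({c, i} : Finset V), G k l ≤ ∑ l, G k l :=
      sum_le_sum_of_subset_of_nonneg (subset_univ _) (fun l _ _ => hG k l)
    rwa [sum_pair hci] at h3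
  have h4 : ∑ k, (G k c + G k i) = (G c c + G c i) + ((G i c + G i i)
      + ∑ k ∈ (univ.erase c).erase i, (G k c + G k i)) := by
    rw [add_sum_erase (univ.erase c) (fun k => G k c + G k i)
        (mem_erase.2 ⟨hci.symm, mem_univ i⟩),
      add_sum_erase univ (fun k => G k c + G k i) (mem_univ c)]
  have h5 : ∑ l, G c l = ∑ k, G k c := sum_congr rfl fun l _ => hs c l
  have h6 : ∑ l, G i l = ∑ k, G k i := sum_congr rfl fun l _ => hs i l
  rw [sum_add_distrib, hcc, hii, hs i c] at h4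
  linarith

/-- the main structural lemma -/
theorem lemA {g : V → V → ℝ} {x : V → ℝ} {lam : ℝ} (h : Eig g x lam) {v u c i : V}
    (hv : ∀ k, x k ≤ x v) (hu : ∀ k, x u ≤ x k) (hc : 0 < x c) (hi : x i < 0)
    (gci : g c i = 1) (gvc : g v c = 1) (gui : g u i = 1)
    (hor : ∀ k, g k c = 1 ∨ g k i = 1) (hl0 : lam < 1)
    (hS : 1 < x v - x u) (Kv Ku A1 A2 : Finset V)
    (hKv : ∀ k, k ∈ Kv ↔ g k c = 1 ∧ g k i = 0 ∧ x c ≤ x k)
    (hKu : ∀ k, k ∈ Ku ↔ g k i = 1 ∧ g k c = 0 ∧ x k ≤ x i)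
    (hA1 : ∀ k ∈ A1, g k i = 1 ∧ g k v = 1) (cA1 : c ∈ A1)
    (hA2 : ∀ k ∈ A2, g k c = 1 ∧ g k u = 1) (iA2 : i ∈ A2)
    (hN : 0 < Kv.card + Ku.card) :
    (1 - lam) ^ 2 * ((((A1.card + A2.card : ℕ) : ℝ) - 1)
      + (2 - lam) ^ 2 / ((Kv.card + Ku.card : ℕ) : ℝ)) ≤ lam := by
  have hci : c ≠ i := by
    rintro rfl
    linarith
  have gic : g i c = 1 := by rw [h.symm]; exact gci
  have hxv0 : 0 < x v := lt_of_lt_of_le hc (hv c)
  have hxu0 : x u < 0 := lt_of_le_of_lt (hu i) hi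
  have hcv : (1 - lam) * x v ≤ x c := h.near_max hv (by rw [h.symm]; exact gvc)
  have hiu : x i ≤ (1 - lam) * x u := h.near_min hu (by rw [h.symm]; exact gui)
  have ha : 0 < 1 - lam := by linarith
  have hav : 0 < (1 - lam) * x v := mul_pos ha hxv0
  have hau : (1 - lam) * x u < 0 := mul_neg_of_pos_of_neg ha hxu0
  set S := x v - x u with hSdef
  set Δ := x c - x i with hΔ
  have hΔS : (1 - lam) * S ≤ Δ := by rw [hSdef, hΔ]; linarith
  have hΔ0 : 0 < Δ := by rw [hΔ]; linarith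
  -- first moment
  have hfirst : (2 - lam) * Δ ≤ ∑ k ∈ Kv, (x k - x c) + ∑ k ∈ Ku, (x i - x k) := by
    have e1 : ∑ k, (g c k * (x c - x k) - g i k * (x i - x k)) = lam * Δ := by
      rw [sum_sub_distrib, h.eig c, h.eig i, hΔ]; ring
    have e2 : ∀ k, (if k = c then Δ else 0) + (if k = i then Δ else 0)
        - (if k ∈ Kv then (x k - x c) else 0) - (if k ∈ Ku then (x i - x k) else 0)
        ≤ g c k * (x c - x k) - g i k * (x i - x k) := by
      intro k
      by_cases hkc : k = c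
      · subst hkc
        have n1 : k ∉ Kv := by
          rw [hKv]; rintro ⟨-, h2, -⟩; rw [gci] at h2; norm_num at h2
        have n2 : k ∉ Ku := by
          rw [hKu]; rintro ⟨-, -, h2⟩; linarith
        rw [if_pos rfl, if_neg hci, if_neg n1, if_neg n2, gic]
        rw [hΔ]; linarith [sub_self (x k), mul_zero (g k k)]
      · by_cases hki : k = i
        · subst hki
          have n1 : k ∉ Kv := by
            rw [hKv]; rintro ⟨-, -, h2⟩; linarith
          have n2 : k ∉ Ku := by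
            rw [hKu]; rintro ⟨-, h2, -⟩; rw [gic] at h2; norm_num at h2
          rw [if_neg hkc, if_pos rfl, if_neg n1, if_neg n2, gci]
          rw [hΔ]; linarith [sub_self (x k), mul_zero (g k k)]
        · rw [if_neg hkc, if_neg hki, h.symm c k, h.symm i k]
          rcases h.zo k c with z1 | z1
          · have z2 : g k i = 1 := by
              rcases hor k with h2 | h2
              · rw [z1] at h2; norm_num at h2
              · exact h2
            have n1 : k ∉ Kv := by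
              rw [hKv]; rintro ⟨h2, -, -⟩; rw [z1] at h2; norm_num at h2
            rw [if_neg n1, z1, z2]
            split_ifs with n2
            · linarith
            · have : x i < x k := by
                by_contra hcon
                push Not at hcon
                exact n2 ((hKu k).2 ⟨z2, z1, hcon⟩)
              linarith
          · have n2 : k ∉ Ku := by
              rw [hKu]; rintro ⟨-, h2, -⟩; rw [z1] at h2; norm_num at h2
            rw [if_neg n2, z1]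
            rcases h.zo k i with z2 | z2
            · rw [z2]
              split_ifs with n1
              · linarith
              · have : x k < x c := by
                  by_contra hcon
                  push Not at hcon
                  exact n1 ((hKv k).2 ⟨z1, z2, hcon⟩)
                linarith
            · have n1 : k ∉ Kv := by
                rw [hKv]; rintro ⟨-, h2, -⟩; rw [z2] at h2; norm_num at h2
              rw [if_neg n1, z2]
              linarith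
    have e3 := sum_le_sum (s := univ) fun k _ => e2 k
    rw [e1] at e3
    simp only [sum_sub_distrib, sum_add_distrib, sum_ite_eq', mem_univ, if_true, sum_ite_mem,
      univ_inter] at e3
    simp only [sum_sub_distrib]
    linarith
  -- second moment
  set R1 := ∑ k ∈ Kv, (x k - x c) ^ 2 with hR1
  set R2 := ∑ k ∈ Ku, (x i - x k) ^ 2 with hR2
  set M := ((1 - lam) * S) ^ 2 with hM
  have hM0 : 0 ≤ M := sq_nonneg _
  have hS0 : 0 < (1 - lam) * S := mul_pos ha (by linarith)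
  have hMΔ : M ≤ Δ ^ 2 := by rw [hM]; exact pow_le_pow_left₀ hS0.le hΔS 2
  have hg0 : ∀ k l, 0 ≤ g k l := by
    intro k l
    rcases h.zo k l with h1 | h1
    · rw [h1]
    · rw [h1]; norm_num
  have hG0 : ∀ k l, 0 ≤ g k l * (x k - x l) ^ 2 := fun k l => mul_nonneg (hg0 k l) (sq_nonneg _)
  have hdisj1 : Disjoint Kv A2 := by
    rw [disjoint_left]
    intro k hk1 hk2
    have h1 := ((hKv k).1 hk1).2.2
    have h2 := h.near_min hu (hA2 k hk2).2
    linarith
  have hdisj2 : Disjoint Ku A1 := by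
    rw [disjoint_left]
    intro k hk1 hk2
    have h1 := ((hKu k).1 hk1).2.2
    have h2 := h.near_max hv (hA1 k hk2).2
    linarith
  have hrow1 : Δ ^ 2 + R1 + ((A2.card : ℝ) - 1) * M ≤ ∑ k, g k c * (x k - x c) ^ 2 := by
    apply row_bound (fun k => g k c * (x k - x c) ^ 2) (fun k => hG0 k c) (i := i) ?_ Kv A2 iA2
      hdisj1 (fun k => (x k - x c) ^ 2)
    · intro k hk
      simp only [((hKv k).1 hk).1, one_mul, le_refl]
    · intro k hk _
      simp only [(hA2 k hk).1, one_mul]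
      have h2 := h.near_min hu (hA2 k hk).2
      have h3 : (1 - lam) * S ≤ x c - x k := by rw [hSdef]; linarith
      calc M ≤ (x c - x k) ^ 2 := by rw [hM]; exact pow_le_pow_left₀ hS0.le h3 2
        _ = (x k - x c) ^ 2 := by ring
    · simp only [gic, one_mul]
      rw [hΔ]
      apply le_of_eq; ring
  have hrow2 : Δ ^ 2 + R2 + ((A1.card : ℝ) - 1) * M ≤ ∑ k, g k i * (x k - x i) ^ 2 := by
    apply row_bound (fun k => g k i * (x k - x i) ^ 2) (fun k => hG0 k i) (i := c) ?_ Ku A1 cA1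
      hdisj2 (fun k => (x i - x k) ^ 2)
    · intro k hk
      simp only [((hKu k).1 hk).1, one_mul]
      apply le_of_eq; ring
    · intro k hk _
      simp only [(hA1 k hk).1, one_mul]
      have h2 := h.near_max hv (hA1 k hk).2
      have h3 : (1 - lam) * S ≤ x k - x i := by rw [hSdef]; linarith
      rw [hM]; exact pow_le_pow_left₀ hS0.le h3 2
    · simp only [gci, one_mul]
      rw [hΔ]
  have htwo := two_rows (fun k l => g k l * (x k - x l) ^ 2) hG0
    (fun k l => by rw [h.symm k l]; ring) hci (by simp) (by simp)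
  simp only [gci, one_mul] at htwo
  rw [h.tot, ← hΔ] at htwo
  -- Cauchy
  set N : ℝ := ((Kv.card + Ku.card : ℕ) : ℝ) with hNdef
  have hN0 : 0 < N := by rw [hNdef]; exact_mod_cast hN
  set T := (2 - lam) * Δ with hT
  have hT0 : 0 < T := mul_pos (by linarith) hΔ0
  set θ := T / N with hθ
  have hθ0 : 0 < θ := div_pos hT0 hN0
  have hθN : θ * N = T := by rw [hθ]; field_simp
  have hcau : T * θ ≤ R1 + R2 := by
    have c1 : ∑ k ∈ Kv, (2 * θ * (x k - x c) - θ ^ 2) ≤ R1 :=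
      sum_le_sum fun k _ => by linarith [sq_nonneg (x k - x c - θ)]
    have c2 : ∑ k ∈ Ku, (2 * θ * (x i - x k) - θ ^ 2) ≤ R2 :=
      sum_le_sum fun k _ => by linarith [sq_nonneg (x i - x k - θ)]
    rw [sum_sub_distrib, ← mul_sum, sum_const, nsmul_eq_mul] at c1 c2
    have c3 : (Kv.card : ℝ) + (Ku.card : ℝ) = N := by rw [hNdef]; push_cast; ring
    have c4 : 2 * θ * T ≤ 2 * θ * (∑ k ∈ Kv, (x k - x c) + ∑ k ∈ Ku, (x i - x k)) :=
      mul_le_mul_of_nonneg_left hfirst (by linarith)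
    have c5 : θ ^ 2 * N = θ * T := by rw [← hθN]; ring
    have c6 : θ ^ 2 * N = θ ^ 2 * (Kv.card : ℝ) + θ ^ 2 * (Ku.card : ℝ) := by rw [← c3]; ring
    linarith
  have hfin : Δ ^ 2 + T * θ + (((A1.card + A2.card : ℕ) : ℝ) - 2) * M ≤ lam := by
    push_cast
    linarith
  have hTθ : T * θ = Δ ^ 2 * ((2 - lam) ^ 2 / N) := by
    rw [hθ, hT]; ring
  have hcard : (0 : ℝ) ≤ ((A1.card + A2.card : ℕ) : ℝ) - 2 := by
    have h1 : 1 ≤ A1.card := card_pos.2 ⟨c, cA1⟩
    have h2 : 1 ≤ A2.card := card_pos.2 ⟨i, iA2⟩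
    have h3 : 2 ≤ A1.card + A2.card := by omega
    have h4 : (2 : ℝ) ≤ ((A1.card + A2.card : ℕ) : ℝ) := by exact_mod_cast h3
    linarith
  have hM1 : (1 - lam) ^ 2 ≤ M := by
    rw [hM, mul_pow]
    have : 1 ≤ S ^ 2 := one_le_pow₀ hS.le
    exact le_mul_of_one_le_right (sq_nonneg _) this
  have hΔ1 : (1 - lam) ^ 2 ≤ Δ ^ 2 := hM1.trans hMΔ
  have hq : 0 ≤ (2 - lam) ^ 2 / N := by positivity
  calc (1 - lam) ^ 2 * ((((A1.card + A2.card : ℕ) : ℝ) - 1) + (2 - lam) ^ 2 / N)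
      = (1 - lam) ^ 2 + (1 - lam) ^ 2 * ((2 - lam) ^ 2 / N)
        + (((A1.card + A2.card : ℕ) : ℝ) - 2) * (1 - lam) ^ 2 := by ring
    _ ≤ Δ ^ 2 + Δ ^ 2 * ((2 - lam) ^ 2 / N)
        + (((A1.card + A2.card : ℕ) : ℝ) - 2) * M := by
        have p1 := mul_le_mul_of_nonneg_right hΔ1 hq
        have p2 := mul_le_mul_of_nonneg_left hM1 hcard
        linarith
    _ ≤ lam := by rw [← hTθ]; exact hfin

end Pool.Agent.Y389.LS
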