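import Pool.Agent.Y389.LS.Core

/-!
# Laplacian spread: one long direction
-/

open Finset

namespace Pool.Agent.Y389.LS

variable {V : Type*} [Fintype V] [DecidableEq V]

/-- polynomial inequality for one long pair -/
theorem poly_one {m α s w : ℝ} (hm : 0 < m) (hα : 0 < α) (hs : 0 < s)
    (h : m * w ≤ 2 * m * (α * s) - (α - s) ^ 2) :
    w * ((m + 1) * (α ^ 2 + s ^ 2) - 2 * (α * s)) ≤ (m + 2) ^ 2 * (α * s) ^ 2 := by
  have hp : 0 < α * s := mul_pos hα hs
  have hF : 0 ≤ (m + 1) * (α ^ 2 + s ^ 2) - 2 * (α * s) := by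
    nlinarith [sq_nonneg (α - s), mul_pos hm hp]
  have hd : 0 ≤ (α - s) ^ 2 := sq_nonneg _
  have e : (m + 1) * (α ^ 2 + s ^ 2) - 2 * (α * s) = (m + 1) * (α - s) ^ 2 + 2 * m * (α * s) := by
    ring
  have h1 : m * w * ((m + 1) * (α ^ 2 + s ^ 2) - 2 * (α * s))
      ≤ (2 * m * (α * s) - (α - s) ^ 2) * ((m + 1) * (α ^ 2 + s ^ 2) - 2 * (α * s)) :=
    mul_le_mul_of_nonneg_right h hF
  rw [e] at h1 ⊢
  set p := α * s with hpdef
  set d := (α - s) ^ 2 with hddef
  have h2 : (2 * m * p - d) * ((m + 1) * d + 2 * m * p) ≤ m * ((m + 2) ^ 2 * p ^ 2) := by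
    have h3 : (m + 1) * (m * ((m + 2) ^ 2 * p ^ 2) - (2 * m * p - d) * ((m + 1) * d + 2 * m * p))
        = ((m + 1) * d - m ^ 2 * p) ^ 2 + (m ^ 3 + 4 * m ^ 2 + 4 * m) * p ^ 2 := by
      ring
    have h4 : 0 ≤ (m + 1) * (m * ((m + 2) ^ 2 * p ^ 2)
        - (2 * m * p - d) * ((m + 1) * d + 2 * m * p)) := by
      rw [h3]
      positivity
    have h5 : 0 ≤ m * ((m + 2) ^ 2 * p ^ 2)
        - (2 * m * p - d) * ((m + 1) * d + 2 * m * p) := by
      by_contra hcon
      push Not at hcon
      have : (m + 1) * (m * ((m + 2) ^ 2 * p ^ 2)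
        - (2 * m * p - d) * ((m + 1) * d + 2 * m * p)) < 0 :=
        mul_neg_of_pos_of_neg (by linarith) hcon
      linarith
    linarith
  have h6 : m * (w * ((m + 1) * d + 2 * m * p)) ≤ m * ((m + 2) ^ 2 * p ^ 2) := by
    calc m * (w * ((m + 1) * d + 2 * m * p)) = m * w * ((m + 1) * d + 2 * m * p) := by ring
      _ ≤ _ := h1
      _ ≤ _ := h2
  exact le_of_mul_le_mul_left h6 hm

/-- one long pair -/
theorem star_one {x y : V → ℝ} (h : Fr x y) {c i : V} (hc : 0 < y c)
    (hb : 1 < (y c - y i) ^ 2) :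
    (x i - x c) ^ 2 * ((y c - y i) ^ 2 - 1)
      ≤ (Fintype.card V : ℝ) * ∑ k, x k ^ 2 * y k ^ 2 := by
  have hci : c ≠ i := by
    rintro rfl
    norm_num at hb
  have hn := card_ge h c i hci
  set n : ℝ := (Fintype.card V : ℝ) with hndef
  set α := y c with hα
  set s := - y i with hs
  have hs0 : 0 < s := by
    have := bad_neg h.yy hb
    rw [hs]
    nlinarith
  set w := (y c - y i) ^ 2 - 1 with hw
  have hw0 : 0 < w := by rw [hw]; linarith
  -- the remaining mass
  have hR : (α - s) ^ 2 ≤ (n - 2) * (1 - α ^ 2 - s ^ 2) := by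
    have h1 : ∑ k ∈ (univ.erase c).erase i, y k = - (α - s) := by
      have e1 := sum_erase_eq_sub (f := y) (mem_univ c)
      have e2 := sum_erase_eq_sub (f := y) (s := univ.erase c) (mem_erase.2 ⟨hci.symm, mem_univ i⟩)
      rw [e2, e1, h.sy]
      rw [hα, hs]; ring
    have h2 : ∑ k ∈ (univ.erase c).erase i, y k ^ 2 = 1 - α ^ 2 - s ^ 2 := by
      have e1 := sum_erase_eq_sub (f := fun k => y k ^ 2) (mem_univ c)
      have e2 := sum_erase_eq_sub (f := fun k => y k ^ 2) (s := univ.erase c)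
        (mem_erase.2 ⟨hci.symm, mem_univ i⟩)
      rw [e2, e1, h.yy]
      rw [hα, hs]; ring
    have h3 := sq_sum_le_card_mul_sum_sq (s := (univ.erase c).erase i) (f := y)
    rw [h1, h2] at h3
    have h4 : (((univ.erase c).erase i).card : ℝ) = n - 2 := by
      rw [card_erase_of_mem (mem_erase.2 ⟨hci.symm, mem_univ i⟩), card_erase_of_mem (mem_univ c),
        card_univ]
      have : 3 ≤ Fintype.card V := by
        have : (3 : ℝ) ≤ (Fintype.card V : ℝ) := hn
        exact_mod_cast this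
      have h5 : Fintype.card V - 1 - 1 = Fintype.card V - 2 := by omega
      rw [h5, Nat.cast_sub (by omega), hndef]
      norm_num
    rw [h4] at h3
    nlinarith [h3]
  have hwe : w = 2 * (α * s) - (1 - α ^ 2 - s ^ 2) := by
    rw [hw, hs]; ring
  have hm : 0 < n - 2 := by linarith
  have hpoly := poly_one (m := n - 2) (w := w) hm hc hs0 (by
    rw [hwe]
    nlinarith [hR])
  -- Cauchy
  set q := ∑ k, x k ^ 2 * y k ^ 2 with hq
  set hh := (α + s) / n with hhdef
  have hn0 : n ≠ 0 := by linarith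
  have hcs := sum_mul_sq_le_sq_mul_sq univ
    (fun k => s * (if k = c then 1 else 0) + α * (if k = i then 1 else 0) - hh)
    (fun k => x k * y k)
  have e1 : ∑ k, (s * (if k = c then (1 : ℝ) else 0) + α * (if k = i then 1 else 0) - hh)
      * (x k * y k) = (α * s) * (x c - x i) := by
    have : ∀ k, (s * (if k = c then (1 : ℝ) else 0) + α * (if k = i then 1 else 0) - hh)
      * (x k * y k) = (if k = c then s * (x k * y k) else 0)
        + (if k = i then α * (x k * y k) else 0) - hh * (x k * y k) := by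
      intro k
      split_ifs <;> ring
    simp only [this, sum_sub_distrib, sum_add_distrib, ← mul_sum, h.xy, sum_ite_eq', mem_univ,
      if_true]
    rw [hα, hs]; ring
  have e2 : ∑ k, (s * (if k = c then (1 : ℝ) else 0) + α * (if k = i then 1 else 0) - hh) ^ 2
      = s ^ 2 + α ^ 2 - (α + s) ^ 2 / n := by
    have : ∀ k, (s * (if k = c then (1 : ℝ) else 0) + α * (if k = i then 1 else 0) - hh) ^ 2
      = (if k = c then s ^ 2 - 2 * hh * s else 0)
        + (if k = i then α ^ 2 - 2 * hh * α else 0) + hh ^ 2 := by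
      intro k
      by_cases h1 : k = c
      · have h2 : ¬ k = i := by rw [h1]; exact hci
        rw [if_pos h1, if_neg h2, if_pos h1, if_neg h2]; ring
      · by_cases h2 : k = i
        · rw [if_pos h2, if_neg h1, if_pos h2, if_neg h1]; ring
        · rw [if_neg h2, if_neg h1, if_neg h2, if_neg h1]; ring
    simp only [this, sum_add_distrib, sum_ite_eq', mem_univ, if_true, sum_const, card_univ,
      nsmul_eq_mul]
    rw [← hndef, hhdef]
    field_simp
    ring
  have e3 : ∑ k, (x k * y k) ^ 2 = q := by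
    rw [hq]
    exact sum_congr rfl fun k _ => by ring
  rw [e1, e2, e3] at hcs
  have hq0 : 0 ≤ q := sum_nonneg fun k _ => by positivity
  have h7 : n * ((α * s) * (x c - x i)) ^ 2 ≤ ((n - 2 + 1) * (α ^ 2 + s ^ 2) - 2 * (α * s)) * q := by
    calc n * ((α * s) * (x c - x i)) ^ 2 ≤ n * ((s ^ 2 + α ^ 2 - (α + s) ^ 2 / n) * q) :=
          mul_le_mul_of_nonneg_left hcs (by linarith)
      _ = _ := by field_simp; ring
  have hp : 0 < α * s := mul_pos hc hs0
  have h8 : n * (α * s) ^ 2 * ((x i - x c) ^ 2 * w) ≤ n * (α * s) ^ 2 * (n * q) := by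
    calc n * (α * s) ^ 2 * ((x i - x c) ^ 2 * w)
        = w * (n * ((α * s) * (x c - x i)) ^ 2) := by ring
      _ ≤ w * (((n - 2 + 1) * (α ^ 2 + s ^ 2) - 2 * (α * s)) * q) :=
          mul_le_mul_of_nonneg_left h7 hw0.le
      _ = w * ((n - 2 + 1) * (α ^ 2 + s ^ 2) - 2 * (α * s)) * q := by ring
      _ ≤ ((n - 2 + 2) ^ 2 * (α * s) ^ 2) * q := mul_le_mul_of_nonneg_right hpoly hq0
      _ = n * (α * s) ^ 2 * (n * q) := by ring
  have h9 : 0 < n * (α * s) ^ 2 := by positivity
  exact le_of_mul_le_mul_left h8 h9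

/-- the excesses of at least two long pairs at `c` -/
theorem excess_two {y : V → ℝ} (hyy : ∑ k, y k ^ 2 = 1) {c : V} (I : Finset V)
    (hcI : c ∉ I) (hI : 2 ≤ I.card) :
    ∑ k ∈ I, ((y c - y k) ^ 2 - 1) ≤ 2 * y c ^ 2 := by
  set α := y c with hα
  set S := ∑ k ∈ I, y k with hS
  set Q := ∑ k ∈ I, y k ^ 2 with hQ
  set m : ℝ := (I.card : ℝ) with hm
  have hm2 : 2 ≤ m := by rw [hm]; exact_mod_cast hI
  have h1 : ∑ k ∈ I, ((α - y k) ^ 2 - 1) = m * α ^ 2 - 2 * α * S + Q - m := by
    have : ∀ k, (α - y k) ^ 2 - 1 = α ^ 2 - (2 * α) * y k + y k ^ 2 - 1 := by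
      intro k; ring
    simp only [this, sum_sub_distrib, sum_add_distrib, ← mul_sum, sum_const, nsmul_eq_mul]
    ring
  have h2 : α ^ 2 + Q ≤ 1 := by
    have := le_one_of_sum hyy (insert c I)
    rwa [sum_insert hcI] at this
  have h3 : S ^ 2 ≤ m * Q := sq_sum_le_card_mul_sum_sq
  have hQ0 : 0 ≤ Q := sum_nonneg fun k _ => sq_nonneg _
  rw [h1]
  have h4 : m * (α ^ 2 + Q) ≤ m := by nlinarith
  -- m α² - 2 α S + Q - m ≤ -2 α S + Q - m Q ≤ - 2 α S - (m/2) Q ≤ -2αS - S²/2 ≤ 2α²
  nlinarith [sq_nonneg (S + 2 * α)]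

/-- at least two long pairs at `c` -/
theorem star_two {x y : V → ℝ} (h : Fr x y) {c : V} (I : Finset V)
    (hI2 : ∀ k ∈ I, 1 < (y c - y k) ^ 2) (hI : 2 ≤ I.card) :
    ∑ k ∈ I, (x k - x c) ^ 2 * ((y c - y k) ^ 2 - 1)
      ≤ (Fintype.card V : ℝ) * ∑ k, x k ^ 2 * y k ^ 2 := by
  have hcI : c ∉ I := by
    intro hc
    have := hI2 c hc
    norm_num at this
  have hn3 : (3 : ℝ) ≤ Fintype.card V := by
    have h1 : (insert c I).card ≤ Fintype.card V := card_le_univ _
    rw [card_insert_of_notMem hcI] at h1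
    have : 3 ≤ Fintype.card V := by omega
    exact_mod_cast this
  set n : ℝ := (Fintype.card V : ℝ) with hndef
  set α := y c with hα
  set hh : ℝ := α / (n - 1) with hhdef
  set E : ℝ := 1 - n * α ^ 2 / (n - 1) with hE
  have hn1 : 0 < n - 1 := by linarith
  -- weights
  set W : V → ℝ := fun k => if k ∈ I then (α - y k) ^ 2 - 1 else 0 with hW
  have hW0 : ∀ k, 0 ≤ W k := by
    intro k
    simp only [hW]
    split_ifs with hk
    · linarith [hI2 k hk]
    · exact le_refl _
  set D : V → ℝ := fun k => n * y k ^ 2 - W k with hD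
  have hsumE : ∑ k ∈ univ.erase c, (y k + hh) ^ 2 = E := by
    have e1 := sum_erase_eq_sub (f := fun k => (y k + hh) ^ 2) (mem_univ c)
    rw [e1]
    have e2 : ∀ k, (y k + hh) ^ 2 = y k ^ 2 + (2 * hh) * y k + hh ^ 2 := by intro k; ring
    simp only [e2, sum_add_distrib, ← mul_sum, h.sy, h.yy, sum_const, card_univ, nsmul_eq_mul]
    rw [← hndef, ← hα, hE, hhdef]
    field_simp
    ring
  have hE0 : 0 ≤ E := by rw [← hsumE]; exact sum_nonneg fun k _ => sq_nonneg _
  have hEk : ∀ k, k ≠ c → (y k + hh) ^ 2 ≤ E := by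
    intro k hk
    rw [← hsumE]
    exact single_le_sum (f := fun k => (y k + hh) ^ 2) (fun j _ => sq_nonneg _)
      (mem_erase.2 ⟨hk, mem_univ k⟩)
  have hDI : ∀ k ∈ I, D k = (n - 1) * (y k + hh) ^ 2 + E := by
    intro k hk
    simp only [hD, hW, if_pos hk]
    rw [hE, hhdef]
    field_simp
    ring
  have hDge : ∀ k, k ≠ c → W k ≠ 0 → n * (y k + hh) ^ 2 ≤ D k := by
    intro k hkc hk
    have hkI : k ∈ I := by
      by_contra hcon
      exact hk (by simp only [hW, if_neg hcon])
    rw [hDI k hkI]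
    nlinarith [hEk k hkc]
  have hD0 : ∀ k, k ≠ c → 0 ≤ D k := by
    intro k hkc
    by_cases hk : W k = 0
    · simp only [hD, hk]; nlinarith [sq_nonneg (y k)]
    · have := hDge k hkc hk
      nlinarith [sq_nonneg (y k + hh)]
  set T := x c with hT
  -- the quadratic expression
  have hsum1 : ∑ k, (x k - T) * y k = 0 := by
    have : ∀ k, (x k - T) * y k = x k * y k - T * y k := by intro k; ring
    simp only [this, sum_sub_distrib, ← mul_sum, h.xy, h.sy]
    ring
  set B := ∑ k ∈ univ.erase c, (x k - T) * y k * (y k + hh) with hB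
  set Gs := ∑ k ∈ univ.erase c, D k * (x k - T) ^ 2 / n with hG
  have hBfull : ∑ k, (x k - T) * y k ^ 2 = B := by
    have e1 := sum_erase_eq_sub (f := fun k => (x k - T) * y k * (y k + hh)) (mem_univ c)
    rw [hB, e1]
    have e2 : ∀ k, (x k - T) * y k * (y k + hh) = (x k - T) * y k ^ 2 + hh * ((x k - T) * y k) := by
      intro k; ring
    simp only [e2, sum_add_distrib, ← mul_sum, hsum1]
    rw [← hT]; ring
  have hGfull : n * Gs = ∑ k, D k * (x k - T) ^ 2 := by
    have e1 := sum_erase_eq_sub (f := fun k => D k * (x k - T) ^ 2 / n) (mem_univ c)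
    rw [hG, e1, ← hT, mul_sub, mul_sum]
    have hn0 : n ≠ 0 := by linarith
    have : ∑ k, n * (D k * (x k - T) ^ 2 / n) = ∑ k, D k * (x k - T) ^ 2 :=
      sum_congr rfl fun k _ => by field_simp
    rw [this]
    ring
  have hq : n * ∑ k, x k ^ 2 * y k ^ 2
      = n * T ^ 2 + 2 * n * T * B + ∑ k, n * y k ^ 2 * (x k - T) ^ 2 := by
    rw [← hBfull, mul_sum]
    have e2 : ∀ k, n * (x k ^ 2 * y k ^ 2) = (n * T ^ 2) * y k ^ 2
        + (2 * n * T) * ((x k - T) * y k ^ 2) + n * y k ^ 2 * (x k - T) ^ 2 := by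
      intro k; ring
    simp only [e2, sum_add_distrib, ← mul_sum, h.yy]
    ring
  have hWsum : ∑ k ∈ I, (x k - T) ^ 2 * ((α - y k) ^ 2 - 1) = ∑ k, W k * (x k - T) ^ 2 := by
    have : ∀ k, W k * (x k - T) ^ 2 = if k ∈ I then (x k - T) ^ 2 * ((α - y k) ^ 2 - 1) else 0 := by
      intro k
      simp only [hW]
      split_ifs <;> ring
    simp only [this, sum_ite_mem, univ_inter]
  have hgoal : n * ∑ k, x k ^ 2 * y k ^ 2 - ∑ k ∈ I, (x k - T) ^ 2 * ((α - y k) ^ 2 - 1)
      = n * (T ^ 2 + 2 * T * B + Gs) := by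
    rw [hq, hWsum]
    have : ∑ k, n * y k ^ 2 * (x k - T) ^ 2 - ∑ k, W k * (x k - T) ^ 2 = n * Gs := by
      rw [hGfull, ← sum_sub_distrib]
      exact sum_congr rfl fun k _ => by simp only [hD]; ring
    linear_combination this
  -- Cauchy
  have hcs : B ^ 2 ≤ (∑ k ∈ univ.erase c, (y k + hh) ^ 2 * (1 + W k / D k)) * Gs := by
    rw [hB, hG]
    apply sum_sq_le_sum_mul_sum_of_sq_eq_mul
    · intro k hk
      have hkc := (mem_erase.1 hk).1
      have := div_nonneg (hW0 k) (hD0 k hkc)
      positivity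
    · intro k hk
      have hkc := (mem_erase.1 hk).1
      have := hD0 k hkc
      have hn0 : 0 < n := by linarith
      positivity
    · intro k hk
      have hkc := (mem_erase.1 hk).1
      have hn0 : n ≠ 0 := by linarith
      by_cases hDk : D k = 0
      · have h0 : y k * (y k + hh) = 0 := by
          by_cases hWk : W k = 0
          · have : n * y k ^ 2 = 0 := by
              have := hDk
              simp only [hD, hWk] at this
              linarith
            have : y k = 0 := by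
              rcases mul_eq_zero.1 this with h1 | h1
              · exact absurd h1 hn0
              · exact pow_eq_zero_iff (two_ne_zero) |>.1 h1
            rw [this, zero_mul]
          · have h1 := hDge k hkc hWk
            rw [hDk] at h1
            have : (y k + hh) ^ 2 = 0 := by
              have := sq_nonneg (y k + hh)
              nlinarith
            have : y k + hh = 0 := pow_eq_zero_iff (two_ne_zero) |>.1 this
            rw [this, mul_zero]
        have : (x k - T) * y k * (y k + hh) = 0 := by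
          rw [mul_assoc, h0, mul_zero]
        rw [this, hDk]
        ring
      · have h1 : n * y k ^ 2 = D k + W k := by simp only [hD]; ring
        have h2 : 1 + W k / D k = n * y k ^ 2 / D k := by
          rw [h1]; field_simp
        rw [h2]
        field_simp
  have hPhi : ∑ k ∈ univ.erase c, (y k + hh) ^ 2 * (1 + W k / D k) ≤ 1 := by
    have h1 : ∀ k ∈ univ.erase c, (y k + hh) ^ 2 * (1 + W k / D k)
        ≤ (y k + hh) ^ 2 + W k / n := by
      intro k hk
      have hkc := (mem_erase.1 hk).1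
      have hn0 : 0 < n := by linarith
      by_cases hWk : W k = 0
      · rw [hWk]; simp
      · have h2 := hDge k hkc hWk
        rcases eq_or_lt_of_le (hD0 k hkc) with h3 | h3
        · rw [← h3, div_zero]
          have := hW0 k
          have : 0 ≤ W k / n := by positivity
          linarith
        · have h4 : (y k + hh) ^ 2 * (W k / D k) ≤ W k / n := by
            rw [mul_div_assoc', div_le_div_iff₀ h3 hn0]
            have := hW0 k
            nlinarith
          linarith
    have h2 : ∑ k ∈ univ.erase c, W k ≤ 2 * α ^ 2 := by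
      have e1 : ∑ k ∈ univ.erase c, W k ≤ ∑ k, W k :=
        sum_le_sum_of_subset_of_nonneg (erase_subset _ _) (fun k _ _ => hW0 k)
      have e2 : ∑ k, W k = ∑ k ∈ I, ((α - y k) ^ 2 - 1) := by
        simp only [hW, sum_ite_mem, univ_inter]
      rw [e2] at e1
      exact e1.trans (excess_two h.yy I hcI hI)
    calc ∑ k ∈ univ.erase c, (y k + hh) ^ 2 * (1 + W k / D k)
        ≤ ∑ k ∈ univ.erase c, ((y k + hh) ^ 2 + W k / n) := sum_le_sum h1
      _ = E + (∑ k ∈ univ.erase c, W k) / n := by rw [sum_add_distrib, hsumE, sum_div]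
      _ ≤ E + 2 * α ^ 2 / n := by
          have hn0 : 0 < n := by linarith
          have := div_le_div_of_nonneg_right h2 hn0.le
          linarith
      _ ≤ 1 := by
          rw [hE]
          have hn0 : 0 < n := by linarith
          have h5 : 2 * α ^ 2 / n ≤ n * α ^ 2 / (n - 1) := by
            rw [div_le_div_iff₀ hn0 hn1]
            nlinarith [sq_nonneg α, sq_nonneg (n - 1), mul_nonneg (sq_nonneg α) (sq_nonneg (n - 1))]
          linarith
  have hGs0 : 0 ≤ Gs := by
    rw [hG]
    refine sum_nonneg fun k hk => ?_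
    have hkc := (mem_erase.1 hk).1
    have := hD0 k hkc
    have hn0 : 0 < n := by linarith
    positivity
  have hB2 : B ^ 2 ≤ Gs := by nlinarith
  have hfin : 0 ≤ T ^ 2 + 2 * T * B + Gs := by nlinarith [sq_nonneg (T + B)]
  have hn0 : 0 < n := by linarith
  have : 0 ≤ n * (T ^ 2 + 2 * T * B + Gs) := by positivity
  linarith

end Pool.Agent.Y389.LS
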