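import Pool.Agent.Y389.LS.Case12

/-!
# Laplacian spread: stationarity of a minimiser
-/

open Finset

namespace Pool.Agent.Y389.LS

variable {V : Type*} [Fintype V]

/-- the bilinear form with weights `g` -/
def BB (g : V → V → ℝ) (u v : V → ℝ) : ℝ := ∑ i, ∑ j, g i j * ((u i - u j) * (v i - v j))

theorem BB_comm (g : V → V → ℝ) (u v : V → ℝ) : BB g u v = BB g v u := by
  simp only [BB, mul_comm]

theorem BB_add (g : V → V → ℝ) (u v : V → ℝ) (τ : ℝ) :
    BB g (fun i => u i + τ * v i) (fun i => u i + τ * v i)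
      = BB g u u + 2 * τ * BB g u v + τ ^ 2 * BB g v v := by
  simp only [BB, mul_sum, ← sum_add_distrib]
  refine sum_congr rfl fun i _ => sum_congr rfl fun j _ => ?_
  ring

theorem BB_div (g : V → V → ℝ) (u : V → ℝ) (s : ℝ) :
    BB g (fun i => u i / s) (fun i => u i / s) = BB g u u / s ^ 2 := by
  simp only [BB, sum_div]
  refine sum_congr rfl fun i _ => sum_congr rfl fun j _ => ?_
  ring

theorem BB_compl (g : V → V → ℝ) (u v : V → ℝ) :
    BB g u v + BB (fun i j => 1 - g i j) u v
      = 2 * (Fintype.card V : ℝ) * ∑ i, u i * v i - 2 * ((∑ i, u i) * ∑ i, v i) := by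
  have h1 : BB g u v + BB (fun i j => 1 - g i j) u v
      = ∑ i, ∑ j, (u i - u j) * (v i - v j) := by
    simp only [BB, ← sum_add_distrib]
    refine sum_congr rfl fun i _ => sum_congr rfl fun j _ => ?_
    ring
  rw [h1]
  have h2 : ∀ i, ∑ j, (u i - u j) * (v i - v j) = (Fintype.card V : ℝ) * (u i * v i)
      - u i * (∑ j, v j) - v i * (∑ j, u j) + ∑ j, u j * v j := by
    intro i
    have h3 : ∀ j, (u i - u j) * (v i - v j) = u i * v i - u i * v j - v i * u j + u j * v j := by
      intro j; ring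
    simp only [h3, sum_sub_distrib, sum_add_distrib, ← mul_sum, sum_const, card_univ, nsmul_eq_mul]
    ring
  simp only [h2, sum_sub_distrib, sum_add_distrib, ← mul_sum, ← sum_mul, sum_const, card_univ,
    nsmul_eq_mul]
  ring

theorem BB_nonneg {g : V → V → ℝ} (hg : ∀ i j, 0 ≤ g i j) (u : V → ℝ) : 0 ≤ BB g u u :=
  sum_nonneg fun i _ => sum_nonneg fun j _ => mul_nonneg (hg i j) (mul_self_nonneg _)

theorem lin_zero {B K : ℝ} (h : ∀ τ : ℝ, 0 ≤ 2 * τ * B + τ ^ 2 * K) : B = 0 := by
  have h1 := h (-B / (|K| + 1))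
  have h2 : 0 < |K| + 1 := by positivity
  have h3 : 2 * (-B / (|K| + 1)) * B + (-B / (|K| + 1)) ^ 2 * K
      = B ^ 2 * (K - 2 * (|K| + 1)) / (|K| + 1) ^ 2 := by
    field_simp
    ring
  rw [h3] at h1
  have h5 : 0 < (|K| + 1) ^ 2 := by positivity
  have h4 : 0 ≤ B ^ 2 * (K - 2 * (|K| + 1)) := by
    by_contra hcon
    push Not at hcon
    have := div_neg_of_neg_of_pos hcon h5
    linarith
  have h6 : K - 2 * (|K| + 1) ≤ -1 := by
    have := le_abs_self K
    have := abs_nonneg K
    linarith
  have h7 : B ^ 2 ≤ 0 := by nlinarith [sq_nonneg B]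
  have h8 : B ^ 2 = 0 := le_antisymm h7 (sq_nonneg B)
  exact pow_eq_zero_iff (two_ne_zero) |>.1 h8

/-- minimiser of the quadratic functional attached to `g` among frames -/
structure Mini (g : V → V → ℝ) (x y : V → ℝ) : Prop where
  fr : Fr x y
  le : ∀ x' y', Fr x' y' → BB g x x + BB (fun i j => 1 - g i j) y y
    ≤ BB g x' x' + BB (fun i j => 1 - g i j) y' y'

theorem Mini.swap {g : V → V → ℝ} {x y : V → ℝ} (h : Mini g x y) :
    Mini (fun i j => 1 - g i j) y x := by
  refine ⟨h.fr.swap, fun x' y' h' => ?_⟩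
  have := h.le y' x' h'.swap
  simp only [sub_sub_cancel]
  linarith

theorem Mini.perp {g : V → V → ℝ} {x y : V → ℝ} (h : Mini g x y) (w : V → ℝ)
    (h1 : ∑ i, w i = 0) (h2 : ∑ i, x i * w i = 0) (h3 : ∑ i, w i * y i = 0) :
    BB g x w = 0 := by
  apply lin_zero (K := BB g w w - (∑ i, w i ^ 2) * BB g x x)
  intro τ
  set c := ∑ i, w i ^ 2 with hc
  have hc0 : 0 ≤ c := sum_nonneg fun i _ => sq_nonneg _
  have hD : 0 < 1 + τ ^ 2 * c := by positivity
  set s := Real.sqrt (1 + τ ^ 2 * c) with hs
  have hs2 : s ^ 2 = 1 + τ ^ 2 * c := Real.sq_sqrt hD.le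
  have hfr : Fr (fun i => (x i + τ * w i) / s) y := by
    refine ⟨?_, h.fr.sy, ?_, h.fr.yy, ?_⟩
    · rw [← sum_div, sum_add_distrib, ← mul_sum, h.fr.sx, h1]
      simp
    · have : ∀ i, ((x i + τ * w i) / s) ^ 2
          = (x i ^ 2 + 2 * τ * (x i * w i) + τ ^ 2 * w i ^ 2) / s ^ 2 := by
        intro i; rw [div_pow]; ring
      simp only [this]
      rw [← sum_div, sum_add_distrib, sum_add_distrib, ← mul_sum, ← mul_sum, h.fr.xx, h2, ← hc, hs2]
      rw [mul_zero, add_zero]
      exact div_self hD.ne'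
    · have : ∀ i, (x i + τ * w i) / s * y i = (x i * y i + τ * (w i * y i)) / s := by
        intro i; ring
      simp only [this]
      rw [← sum_div, sum_add_distrib, ← mul_sum, h.fr.xy, h3]
      simp
  have h4 := h.le _ _ hfr
  rw [BB_div g (fun i => x i + τ * w i) s, BB_add, hs2] at h4
  have h5 : BB g x x ≤ (BB g x x + 2 * τ * BB g x w + τ ^ 2 * BB g w w) / (1 + τ ^ 2 * c) := by
    linarith
  rw [le_div_iff₀ hD] at h5
  nlinarith

theorem Mini.rot {g : V → V → ℝ} {x y : V → ℝ} (h : Mini g x y) : BB g x y = 0 := by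
  have hcompl : BB (fun i j => 1 - g i j) y x = - BB g x y := by
    have h1 := BB_compl g x y
    rw [h.fr.sx, h.fr.xy] at h1
    rw [BB_comm (fun i j => 1 - g i j) y x]
    linarith
  have hkey : 2 * BB g x y = 0 := by
    apply lin_zero (K := BB g y y + BB (fun i j => 1 - g i j) x x
      - BB g x x - BB (fun i j => 1 - g i j) y y)
    intro τ
    have hD : 0 < 1 + τ ^ 2 := by positivity
    set s := Real.sqrt (1 + τ ^ 2) with hs
    have hs2 : s ^ 2 = 1 + τ ^ 2 := Real.sq_sqrt hD.le
    have hfr : Fr (fun i => (x i + τ * y i) / s) (fun i => (y i + (-τ) * x i) / s) := by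
      refine ⟨?_, ?_, ?_, ?_, ?_⟩
      · rw [← sum_div, sum_add_distrib, ← mul_sum, h.fr.sx, h.fr.sy]
        simp
      · rw [← sum_div, sum_add_distrib, ← mul_sum, h.fr.sx, h.fr.sy]
        simp
      · have : ∀ i, ((x i + τ * y i) / s) ^ 2
            = (x i ^ 2 + 2 * τ * (x i * y i) + τ ^ 2 * y i ^ 2) / s ^ 2 := by
          intro i; rw [div_pow]; ring
        simp only [this]
        rw [← sum_div, sum_add_distrib, sum_add_distrib, ← mul_sum, ← mul_sum, h.fr.xx, h.fr.xy,
          h.fr.yy, hs2]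
        rw [mul_zero, add_zero, mul_one]
        exact div_self hD.ne'
      · have : ∀ i, ((y i + (-τ) * x i) / s) ^ 2
            = (y i ^ 2 + (-(2 * τ)) * (x i * y i) + τ ^ 2 * x i ^ 2) / s ^ 2 := by
          intro i; rw [div_pow]; ring
        simp only [this]
        rw [← sum_div, sum_add_distrib, sum_add_distrib, ← mul_sum, ← mul_sum, h.fr.xx, h.fr.xy,
          h.fr.yy, hs2]
        rw [mul_zero, add_zero, mul_one]
        exact div_self hD.ne'
      · have : ∀ i, (x i + τ * y i) / s * ((y i + (-τ) * x i) / s)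
            = ((1 - τ ^ 2) * (x i * y i) + τ * y i ^ 2 - τ * x i ^ 2) / s ^ 2 := by
          intro i; ring
        simp only [this]
        rw [← sum_div, sum_sub_distrib, sum_add_distrib, ← mul_sum, ← mul_sum, ← mul_sum, h.fr.xx,
          h.fr.xy, h.fr.yy]
        simp
    have h4 := h.le _ _ hfr
    rw [BB_div g (fun i => x i + τ * y i) s, BB_add,
      BB_div (fun i j => 1 - g i j) (fun i => y i + (-τ) * x i) s, BB_add, hs2, hcompl,
      ← add_div, le_div_iff₀ hD] at h4
    nlinarith
  linarith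

/-- the Euler equation -/
theorem Mini.euler {g : V → V → ℝ} {x y : V → ℝ} (h : Mini g x y) (u : V → ℝ) :
    BB g x u = (∑ i, x i * u i) * BB g x x := by
  have hne : Nonempty V := by
    by_contra hcon
    rw [not_nonempty_iff] at hcon
    have := h.fr.xx
    simp at this
  have hn : (Fintype.card V : ℝ) ≠ 0 := by
    have : 0 < Fintype.card V := Fintype.card_pos
    exact_mod_cast this.ne'
  set m := (∑ i, u i) / (Fintype.card V : ℝ) with hm
  set β := ∑ i, x i * u i with hβ
  set γ := ∑ i, u i * y i with hγ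
  have h0 := h.perp (fun i => u i - m - β * x i - γ * y i) ?_ ?_ ?_
  · have h1 : BB g x (fun i => u i - m - β * x i - γ * y i)
        = BB g x u - β * BB g x x - γ * BB g x y := by
      simp only [BB, mul_sum, ← sum_sub_distrib]
      refine sum_congr rfl fun i _ => sum_congr rfl fun j _ => ?_
      ring
    rw [h1, h.rot] at h0
    linarith
  · simp only [sum_sub_distrib, ← mul_sum, h.fr.sx, h.fr.sy, sum_const, card_univ, nsmul_eq_mul]
    rw [hm]
    field_simp
    ring
  · have : ∀ i, x i * (u i - m - β * x i - γ * y i)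
        = x i * u i - m * x i - β * x i ^ 2 - γ * (x i * y i) := by
      intro i; ring
    simp only [this, sum_sub_distrib, ← mul_sum, h.fr.sx, h.fr.xx, h.fr.xy]
    rw [← hβ]; ring
  · have : ∀ i, (u i - m - β * x i - γ * y i) * y i
        = u i * y i - m * y i - β * (x i * y i) - γ * y i ^ 2 := by
      intro i; ring
    simp only [this, sum_sub_distrib, ← mul_sum, h.fr.sy, h.fr.yy, h.fr.xy]
    rw [← hγ]; ring

/-- eigenvector data for a zero-one weight -/
structure Eig (g : V → V → ℝ) (x : V → ℝ) (lam : ℝ) : Prop where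
  symm : ∀ i j, g i j = g j i
  zo : ∀ i j, g i j = 0 ∨ g i j = 1
  eig : ∀ p, ∑ j, g p j * (x p - x j) = lam * x p
  tot : ∑ i, ∑ j, g i j * (x i - x j) ^ 2 = 2 * lam

theorem Eig.neg {g : V → V → ℝ} {x : V → ℝ} {lam : ℝ} (h : Eig g x lam) :
    Eig g (fun i => - x i) lam := by
  refine ⟨h.symm, h.zo, fun p => ?_, ?_⟩
  · have := h.eig p
    have e : ∑ j, g p j * (- x p - - x j) = - ∑ j, g p j * (x p - x j) := by
      rw [← sum_neg_distrib]
      exact sum_congr rfl fun j _ => by ring
    rw [e, this]; ring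
  · rw [← h.tot]
    refine sum_congr rfl fun i _ => sum_congr rfl fun j _ => ?_
    ring

theorem Mini.toEig [DecidableEq V] {g : V → V → ℝ} {x y : V → ℝ} (h : Mini g x y)
    (hs : ∀ i j, g i j = g j i) (hz : ∀ i j, g i j = 0 ∨ g i j = 1) :
    Eig g x (BB g x x / 2) := by
  refine ⟨hs, hz, fun p => ?_, ?_⟩
  · have h1 := h.euler (fun i => if i = p then 1 else 0)
    have h2 : ∑ i, x i * (if i = p then (1 : ℝ) else 0) = x p := by
      simp
    rw [h2] at h1
    have h3 : BB g x (fun i => if i = p then 1 else 0) = 2 * ∑ j, g p j * (x p - x j) := by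
      have e1 : BB g x (fun i => if i = p then 1 else 0)
          = ∑ i, ∑ j, (if i = p then g i j * (x i - x j) else 0)
            - ∑ i, ∑ j, (if j = p then g i j * (x i - x j) else 0) := by
        simp only [BB, ← sum_sub_distrib]
        refine sum_congr rfl fun i _ => sum_congr rfl fun j _ => ?_
        split_ifs <;> ring
      have e2 : ∑ i, ∑ j, (if i = p then g i j * (x i - x j) else 0)
          = ∑ j, g p j * (x p - x j) := by
        rw [sum_comm]
        refine sum_congr rfl fun j _ => ?_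
        rw [sum_ite_eq' univ p]
        simp
      have e3 : ∑ i, ∑ j, (if j = p then g i j * (x i - x j) else 0)
          = - ∑ j, g p j * (x p - x j) := by
        rw [← sum_neg_distrib]
        refine sum_congr rfl fun i _ => ?_
        rw [sum_ite_eq' univ p]
        simp only [mem_univ, if_true]
        rw [hs i p]; ring
      rw [e1, e2, e3]; ring
    rw [h3] at h1
    linarith
  · simp only [BB]
    have : ∀ i j, g i j * (x i - x j) ^ 2 = g i j * ((x i - x j) * (x i - x j)) := by
      intro i j; ring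
    simp only [this]
    ring

end Pool.Agent.Y389.LS
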